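import Pool.Agent.Work.MP_302c96_al.Str.Eg

/-! No counterexample is elementary amenable. -/

set_option autoImplicit false

open scoped commutatorElement

namespace Pool.Agent.Work.MP_302c96_al.Str

open Pool.Agent.Work.MP_302c96_al.Mal

universe u

variable {G : Type u} [Group G] {a x : G}

/-- the subgroup generated by the `m`-th powers of elements of `L` -/
def Pw (L : Subgroup G) (m : ℕ) : Subgroup G := Subgroup.closure {y | ∃ h ∈ L, y = h ^ m}

lemma Pw_normal {L : Subgroup G} (hL : L.Normal) (m : ℕ) : (Pw L m).Normal := by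
  refine ⟨fun y hy g => ?_⟩
  have hle : Pw L m ≤ (Pw L m).comap (MulAut.conj g).toMonoidHom := by
    unfold Pw
    rw [Subgroup.closure_le]
    rintro y ⟨h, hh, rfl⟩
    show g * h ^ m * g⁻¹ ∈ Subgroup.closure {y | ∃ h ∈ L, y = h ^ m}
    rw [← conj_pow]
    exact Subgroup.subset_closure ⟨_, hL.conj_mem h hh g, rfl⟩
  exact hle hy

lemma mint_pow {z : Multiplicative ℤ} {n : ℕ} (hn : n ≠ 0) (h : z ^ n = 1) : z = 1 := by
  have h1 := congrArg Multiplicative.toAdd h
  rw [toAdd_pow, toAdd_one, smul_eq_zero] at h1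
  rcases h1 with h1 | h1
  · exact absurd h1 hn
  · exact Multiplicative.toAdd.injective h1

lemma vi_pow {L : Subgroup G} (hL : L.Normal) (h : VirtIndic L) :
    ∃ V : Subgroup G, V.Normal ∧ V ≤ L ∧ ∃ v ∈ V, v ≠ 1 ∧
      ∀ t : ℕ, 0 < t → v ^ t ∉ (⁅V, V⁆ : Subgroup G) := by
  obtain ⟨K, hK, f, hf⟩ := h
  have hC : K.normalCore.FiniteIndex := inferInstance
  obtain ⟨m, hm⟩ : ∃ m, m = K.normalCore.index := ⟨_, rfl⟩
  have hm0 : m ≠ 0 := by
    rw [hm]
    exact hC.index_ne_zero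
  have hpow : ∀ l : L, l ^ m ∈ K := by
    intro l
    rw [hm]
    exact K.normalCore_le (Subgroup.pow_index_mem K.normalCore l)
  let e : K ≃* K.map L.subtype := K.equivMapOfInjective L.subtype L.subtype_injective
  have hVK : Pw L m ≤ K.map L.subtype := by
    unfold Pw
    rw [Subgroup.closure_le]
    rintro y ⟨l, hl, rfl⟩
    exact ⟨⟨l, hl⟩ ^ m, hpow ⟨l, hl⟩, rfl⟩
  let F : Pw L m →* Multiplicative ℤ :=
    (f.comp e.symm.toMonoidHom).comp (Subgroup.inclusion hVK)
  have hF : ∀ (k : K) (hk : (L.subtype k.1) ∈ Pw L m), F ⟨L.subtype k.1, hk⟩ = f k := by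
    intro k hk
    show f (e.symm (Subgroup.inclusion hVK ⟨L.subtype k.1, hk⟩)) = f k
    congr 1
    rw [MulEquiv.symm_apply_eq]
    rfl
  obtain ⟨k, hk⟩ : ∃ k, f k ≠ 1 := by
    by_contra hcon
    push Not at hcon
    exact hf (MonoidHom.ext hcon)
  have hkm : L.subtype (k ^ m).1 ∈ Pw L m := Subgroup.subset_closure ⟨k.1.1, k.1.2, rfl⟩
  have hcomm : (⁅Pw L m, Pw L m⁆ : Subgroup G) ≤ F.ker.map (Pw L m).subtype := by
    rw [Subgroup.commutator_le]
    intro u hu w hw
    refine ⟨⁅(⟨u, hu⟩ : Pw L m), ⟨w, hw⟩⁆, ?_, rfl⟩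
    rw [SetLike.mem_coe, MonoidHom.mem_ker, map_commutatorElement, commutatorElement_eq_one_iff_mul_comm,
      mul_comm]
  have hnot : ∀ t : ℕ, 0 < t → (L.subtype (k ^ m).1) ^ t ∉ (⁅Pw L m, Pw L m⁆ : Subgroup G) := by
    intro t ht hmem
    obtain ⟨y, hy, hy2⟩ := hcomm hmem
    have hy3 : y = ⟨L.subtype ((k ^ m) ^ t).1, by
        have := (Pw L m).pow_mem hkm t
        simpa using this⟩ := by
      apply Subtype.ext
      rw [show (y : G) = (Pw L m).subtype y from rfl, hy2]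
      simp
    rw [SetLike.mem_coe, MonoidHom.mem_ker, hy3, hF, ← pow_mul, map_pow] at hy
    exact hk (mint_pow (mul_ne_zero hm0 ht.ne') hy)
  refine ⟨Pw L m, Pw_normal hL m, ?_, L.subtype (k ^ m).1, hkm, ?_, hnot⟩
  · unfold Pw
    rw [Subgroup.closure_le]
    rintro y ⟨l, hl, rfl⟩
    exact L.pow_mem hl m
  · intro h1
    have := hnot 1 one_pos
    rw [h1, one_pow] at this
    exact this (Subgroup.one_mem _)

lemma comm_ne_bot (h : Ctx a x) {V : Subgroup G} (hV : V.Normal) {v : G} (hv : v ∈ V) (hv1 : v ≠ 1) :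
    (⁅V, V⁆ : Subgroup G) ≠ ⊥ := by
  intro h0
  have : V = ⊥ := by
    apply no_ab h V hV
    intro s hs t ht
    have h3 : ⁅s, t⁆ ∈ (⁅V, V⁆ : Subgroup G) := Subgroup.commutator_mem_commutator hs ht
    rwa [h0, Subgroup.mem_bot, commutatorElement_eq_one_iff_mul_comm] at h3
  rw [this, Subgroup.mem_bot] at hv
  exact hv1 hv

lemma vi_top (h : Ctx a x) (hG : VirtIndic (⊤ : Subgroup G)) :
    ∀ n : ℤ, a ^ n ∈ commutator G → n = 0 := by
  obtain ⟨V, hV, _, v, hv, hv1, hnot⟩ := vi_pow inferInstance hG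
  have h1 := comm_ne_bot h hV hv hv1
  have hn : (⁅V, V⁆ : Subgroup G).Normal := inferInstance
  refine inf_ab h ⁅V, V⁆ h1 ?_
  by_contra hfin
  have hfin' : Finite (G ⧸ (⁅V, V⁆ : Subgroup G)) := not_infinite_iff_finite.1 hfin
  have hfi : (⁅V, V⁆ : Subgroup G).FiniteIndex := Subgroup.finiteIndex_of_finite_quotient
  exact hnot _ (Nat.pos_of_ne_zero hfi.index_ne_zero) (Subgroup.pow_index_mem _ v)

lemma vi_comm (h : Ctx a x) : ¬ VirtIndic (commutator G) := by
  intro hG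
  obtain ⟨V, hV, hVle, v, hv, hv1, hnot⟩ := vi_pow inferInstance hG
  have h1 := comm_ne_bot h hV hv hv1
  have hn : (⁅V, V⁆ : Subgroup G).Normal := inferInstance
  obtain ⟨n, hn0, hn1⟩ := pow_mem_of_rel hn (rel h ⁅V, V⁆ h1)
  exact hnot n hn0 (hn1 v (hVle hv))

lemma top_fg (h : Ctx a x) : (⊤ : Subgroup G).FG := by
  rw [Subgroup.fg_iff]
  refine ⟨{a, x}, ?_, by simp⟩
  rw [eq_top_iff]
  intro g _
  obtain ⟨i, j, k, rfl⟩ := h.cov g
  have ha : a ∈ Subgroup.closure {a, x} := Subgroup.subset_closure (by simp)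
  have hx : x ∈ Subgroup.closure {a, x} := Subgroup.subset_closure (by simp)
  exact mul_mem (mul_mem (zpow_mem ha _) (mul_mem (mul_mem hx (zpow_mem ha _)) (inv_mem hx)))
    (zpow_mem ha _)

lemma G_inf (h : Ctx a x) : Infinite G := by
  refine Infinite.of_injective (fun n : ℤ => a ^ n) ?_
  intro m n hmn
  have : a ^ (m - n) = 1 := by
    rw [zpow_sub, show a ^ m = a ^ n from hmn, mul_inv_cancel]
  have := h.inf _ this
  omega

lemma comm_inf (h : Ctx a x) : Infinite (commutator G) := by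
  obtain ⟨c, hc, hx⟩ := gauge h
  refine Infinite.of_injective (fun n : ℤ => (⟨X a (x * a ^ c) n, ?_⟩ : commutator G)) ?_
  · unfold X
    rw [zpow_neg]
    exact Subgroup.Normal.conj_mem inferInstance _ hx _
  · intro m n hmn
    exact X_inj hc (congrArg Subtype.val hmn)

lemma comm_fg (h : Ctx a x) (hA : ∀ n : ℤ, a ^ n ∈ commutator G → n = 0) : (commutator G).FG := by
  obtain ⟨c, hc, hx⟩ := gauge h
  exact fg hc inferInstance hx hA

/-- some infinite finitely generated subgroup is not virtually indicable -/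
theorem ex_not_vi (h : Ctx a x) :
    ∃ H : Subgroup G, H.Normal ∧ H.FG ∧ Infinite H ∧ ¬ VirtIndic H := by
  by_cases hG : VirtIndic (⊤ : Subgroup G)
  · exact ⟨commutator G, inferInstance, comm_fg h (vi_top h hG), comm_inf h, vi_comm h⟩
  · have := G_inf h
    have hi : Infinite (⊤ : Subgroup G) := Infinite.of_injective _ Subgroup.topEquiv.symm.injective
    exact ⟨⊤, inferInstance, top_fg h, hi, hG⟩

theorem not_eg (h : Ctx a x) : ¬ ElemAmen G := by
  intro hE
  obtain ⟨H, _, h1, h2, h3⟩ := ex_not_vi h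
  exact h3 (hE.virt H h1 h2)

end Pool.Agent.Work.MP_302c96_al.Str
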