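import Mathlib

/-! Finitely generated groups: maximal normal subgroups and the Chinese remainder theorem. -/

set_option autoImplicit false

open scoped commutatorElement

namespace Pool.Agent.Work.MP_302c96_al.Str

universe u v

lemma exists_max_normal {D : Type u} [Group D] (hfg : Group.FG D) (hnt : Nontrivial D) :
    ∃ K : Subgroup D, K.Normal ∧ K ≠ ⊤ ∧
      ∀ K' : Subgroup D, K'.Normal → K ≤ K' → K' = K ∨ K' = ⊤ := by
  obtain ⟨T, hT, hTfin⟩ := Group.fg_iff.1 hfg
  obtain ⟨m, _, hm⟩ := zorn_le_nonempty₀ {K : Subgroup D | K.Normal ∧ K ≠ ⊤} (by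
    intro c hc hchain y hy
    have hdir : DirectedOn (· ≤ ·) c := hchain.directedOn
    refine ⟨sSup c, ⟨?_, ?_⟩, fun z hz => le_sSup hz⟩
    · refine ⟨fun n hn g => ?_⟩
      rw [Subgroup.mem_sSup_of_directedOn ⟨y, hy⟩ hdir] at hn ⊢
      obtain ⟨H, hH, hn⟩ := hn
      exact ⟨H, hH, (hc hH).1.conj_mem n hn g⟩
    · intro htop
      have hex : ∀ T' : Set D, T'.Finite → ∃ H ∈ c, T' ⊆ H := by
        intro T' hT'
        induction T', hT' using Set.Finite.induction_on with
        | empty => exact ⟨y, hy, by simp⟩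
        | @insert t T' _ _ ih =>
          obtain ⟨H, hH, h1⟩ := ih
          have ht : t ∈ sSup c := by rw [htop]; exact Subgroup.mem_top t
          rw [Subgroup.mem_sSup_of_directedOn ⟨y, hy⟩ hdir] at ht
          obtain ⟨H', hH', h2⟩ := ht
          obtain ⟨H'', hH'', h3, h4⟩ := hdir H hH H' hH'
          refine ⟨H'', hH'', ?_⟩
          rintro t' (rfl | ht')
          · exact h4 h2
          · exact h3 (h1 ht')
      obtain ⟨H, hH, hTH⟩ := hex T hTfin
      apply (hc hH).2
      rw [eq_top_iff, ← hT, Subgroup.closure_le]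
      exact hTH) ⊥ ⟨inferInstance, by
        intro h
        exact (bot_ne_top : (⊥ : Subgroup D) ≠ ⊤) h⟩
  refine ⟨m, hm.prop.1, hm.prop.2, fun K' hK' hle => ?_⟩
  by_cases h : K' = ⊤
  · exact Or.inr h
  · exact Or.inl (le_antisymm (hm.le_of_ge ⟨hK', h⟩ hle) hle)

lemma simple_quot {D : Type u} [Group D] (K : Subgroup D) [K.Normal] (hK : K ≠ ⊤)
    (hmax : ∀ K' : Subgroup D, K'.Normal → K ≤ K' → K' = K ∨ K' = ⊤) : IsSimpleGroup (D ⧸ K) := by
  have hnt : Nontrivial (D ⧸ K) := QuotientGroup.nontrivial_iff.2 hK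
  refine { exists_pair_ne := hnt.exists_pair_ne, eq_bot_or_eq_top_of_normal := ?_ }
  intro H hH
  have h1 : K ≤ H.comap (QuotientGroup.mk' K) := by
    intro k hk
    show QuotientGroup.mk' K k ∈ H
    rw [show QuotientGroup.mk' K k = 1 from (QuotientGroup.eq_one_iff k).2 hk]
    exact H.one_mem
  have h2 : (H.comap (QuotientGroup.mk' K)).map (QuotientGroup.mk' K) = H :=
    Subgroup.map_comap_eq_self_of_surjective (QuotientGroup.mk'_surjective K) H
  rcases hmax _ (hH.comap _) h1 with h | h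
  · left
    rw [← h2, h, QuotientGroup.map_mk'_self]
  · right
    rw [← h2, h, Subgroup.map_top_of_surjective _ (QuotientGroup.mk'_surjective K)]

section

variable {D : Type u} [Group D] {S : Type v} [Group S]

lemma map_top_of (hS : IsSimpleGroup S) (φ : D →* S) (hφ : Function.Surjective φ) (U : Subgroup D)
    (hU : U.Normal) (h : ¬ U ≤ φ.ker) : U.map φ = ⊤ := by
  rcases hS.eq_bot_or_eq_top_of_normal (U.map φ) (hU.map φ hφ) with h1 | h1
  · exact absurd ((Subgroup.map_eq_bot_iff U).1 h1) h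
  · exact h1

lemma prime (hS : IsSimpleGroup S) (hna : ∃ s t : S, s * t ≠ t * s) (φ : D →* S)
    (hφ : Function.Surjective φ) (U V : Subgroup D) (hU : U.Normal) (hV : V.Normal)
    (h : U ⊓ V ≤ φ.ker) : U ≤ φ.ker ∨ V ≤ φ.ker := by
  by_contra hcon
  push Not at hcon
  obtain ⟨h1, h2⟩ := hcon
  have h3 := map_top_of hS φ hφ U hU h1
  have h4 := map_top_of hS φ hφ V hV h2
  obtain ⟨s, t, hst⟩ := hna
  obtain ⟨u, hu, rfl⟩ : s ∈ U.map φ := by rw [h3]; exact Subgroup.mem_top s
  obtain ⟨w, hw, rfl⟩ : t ∈ V.map φ := by rw [h4]; exact Subgroup.mem_top t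
  have h5 : ⁅u, w⁆ ∈ U ⊓ V := by
    constructor
    · rw [commutatorElement_def, mul_assoc, mul_assoc]
      exact U.mul_mem hu (by simpa [mul_assoc] using hU.conj_mem _ (U.inv_mem hu) w)
    · rw [commutatorElement_def]
      exact V.mul_mem (hV.conj_mem _ hw u) (V.inv_mem hw)
  have h6 := h h5
  rw [MonoidHom.mem_ker, map_commutatorElement, commutatorElement_eq_one_iff_mul_comm] at h6
  exact hst h6

lemma inf_normal : ∀ 𝒮 : Finset (Subgroup D), (∀ K ∈ 𝒮, K.Normal) → (𝒮.inf id).Normal := by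
  classical
  intro 𝒮
  induction 𝒮 using Finset.induction_on with
  | empty => intro _; rw [Finset.inf_empty]; infer_instance
  | @insert K 𝒮 _ ih =>
    intro h
    rw [Finset.inf_insert]
    have h1 : (id K).Normal := h K (Finset.mem_insert_self _ _)
    have h2 := ih fun K' hK' => h K' (Finset.mem_insert_of_mem hK')
    exact Subgroup.normal_inf_normal _ _

lemma prime_finset (hS : IsSimpleGroup S) (hna : ∃ s t : S, s * t ≠ t * s) (φ : D →* S)
    (hφ : Function.Surjective φ) (𝒯 : Finset (Subgroup D)) (hn : ∀ K ∈ 𝒯, K.Normal)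
    (h : 𝒯.inf id ≤ φ.ker) : ∃ K ∈ 𝒯, K ≤ φ.ker := by
  classical
  induction 𝒯 using Finset.induction_on with
  | empty =>
    exfalso
    rw [Finset.inf_empty, top_le_iff] at h
    obtain ⟨s, t, hst⟩ := hna
    obtain ⟨u, rfl⟩ := hφ s
    obtain ⟨w, rfl⟩ := hφ t
    have h1 : ∀ u : D, φ u = 1 := fun u => by
      rw [← MonoidHom.mem_ker, h]
      exact Subgroup.mem_top u
    exact hst (by rw [h1 u, h1 w])
  | @insert K 𝒯 _ ih =>
    rw [Finset.inf_insert] at h
    have hn' : (𝒯.inf id).Normal := inf_normal 𝒯 fun K' hK' => hn K' (Finset.mem_insert_of_mem hK')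
    rcases prime hS hna φ hφ K (𝒯.inf id) (hn K (Finset.mem_insert_self _ _)) hn' h with h1 | h1
    · exact ⟨K, Finset.mem_insert_self _ _, h1⟩
    · obtain ⟨K', hK', h2⟩ := ih (fun K' hK' => hn K' (Finset.mem_insert_of_mem hK')) h1
      exact ⟨K', Finset.mem_insert_of_mem hK', h2⟩

/-- Chinese remainder theorem for kernels of epimorphisms onto a nonabelian simple group. -/
lemma crt (hS : IsSimpleGroup S) (hna : ∃ s t : S, s * t ≠ t * s) (𝒯 : Finset (Subgroup D))
    (hφ : ∀ K ∈ 𝒯, ∃ φ : D →* S, Function.Surjective φ ∧ φ.ker = K)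
    (hbot : ∀ d : D, (∀ K ∈ 𝒯, d ∈ K) → d = 1) : Nonempty (D ≃* (Fin 𝒯.card → S)) := by
  classical
  choose φ hsurj hker using fun K : 𝒯 => hφ K.1 K.2
  have hn : ∀ K ∈ 𝒯, K.Normal := by
    intro K hK
    have h1 : (φ ⟨K, hK⟩).ker = K := hker ⟨K, hK⟩
    rw [← h1]
    infer_instance
  have hle : ∀ K K' : 𝒯, K.1 ≤ K'.1 → K = K' := by
    intro K K' h
    apply Subtype.ext
    refine le_antisymm h ?_
    by_contra h2
    rw [← hker K] at h2
    have h3 := map_top_of hS (φ K) (hsurj K) K'.1 (hn _ K'.2) h2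
    -- `K' ≥ ker φ_K`, so `K' = ⊤`, impossible
    have h4 : K'.1 = ⊤ := by
      rw [eq_top_iff]
      intro d _
      obtain ⟨d', hd', h5⟩ : φ K d ∈ K'.1.map (φ K) := by rw [h3]; exact Subgroup.mem_top _
      have h6 : d'⁻¹ * d ∈ (φ K).ker := by
        rw [MonoidHom.mem_ker, map_mul, map_inv, h5, inv_mul_cancel]
      rw [hker K] at h6
      have := K'.1.mul_mem hd' (h h6)
      rwa [mul_inv_cancel_left] at this
    obtain ⟨s, t, hst⟩ := hna
    obtain ⟨u, rfl⟩ := hsurj K' s
    obtain ⟨w, rfl⟩ := hsurj K' t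
    have h1 : ∀ u : D, φ K' u = 1 := fun u => by
      rw [← MonoidHom.mem_ker, hker K', h4]
      exact Subgroup.mem_top u
    exact hst (by rw [h1 u, h1 w])
  let Φ : D →* (𝒯 → S) := MonoidHom.pi φ
  have hinj : Function.Injective Φ := by
    rw [injective_iff_map_eq_one]
    intro d hd
    apply hbot
    intro K hK
    have h1 : (φ ⟨K, hK⟩).ker = K := hker ⟨K, hK⟩
    rw [← h1, MonoidHom.mem_ker]
    exact congrFun hd ⟨K, hK⟩
  have hsur : Function.Surjective Φ := by
    rw [← MonoidHom.range_eq_top, eq_top_iff]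
    intro y _
    refine Subgroup.pi_mem_of_mulSingle_mem y ?_
    intro K
    have h1 : ¬ (𝒯.erase K.1).inf id ≤ (φ K).ker := by
      intro h
      obtain ⟨K', hK', h2⟩ := prime_finset hS hna (φ K) (hsurj K) (𝒯.erase K.1)
        (fun K' hK' => hn K' (Finset.mem_of_mem_erase hK')) h
      rw [hker K] at h2
      have h3 := hle ⟨K', Finset.mem_of_mem_erase hK'⟩ K h2
      exact (Finset.ne_of_mem_erase hK') (congrArg Subtype.val h3)
    have hn' : ((𝒯.erase K.1).inf id).Normal :=
      inf_normal _ fun K' hK' => hn K' (Finset.mem_of_mem_erase hK')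
    have h2 := map_top_of hS (φ K) (hsurj K) _ hn' h1
    obtain ⟨d, hd, h3⟩ : y K ∈ ((𝒯.erase K.1).inf id).map (φ K) := by
      rw [h2]
      exact Subgroup.mem_top _
    refine ⟨d, ?_⟩
    funext K'
    show φ K' d = _
    by_cases hKK : K' = K
    · subst hKK
      rw [h3, Pi.mulSingle_eq_same]
    · rw [Pi.mulSingle_eq_of_ne hKK, ← MonoidHom.mem_ker, hker K']
      have h4 : (𝒯.erase K.1).inf id ≤ K'.1 := by
        apply Finset.inf_le (f := id)
        rw [Finset.mem_erase]
        exact ⟨fun h => hKK (Subtype.ext h), K'.2⟩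
      exact h4 hd
  exact ⟨(MulEquiv.ofBijective Φ ⟨hinj, hsur⟩).trans
    (MulEquiv.arrowCongr 𝒯.equivFin (MulEquiv.refl S))⟩

end

/-- an infinite simple group is not abelian -/
lemma simple_na {S : Type u} [Group S] (hS : IsSimpleGroup S) (hi : Infinite S) :
    ∃ s t : S, s * t ≠ t * s := by
  by_contra hcon
  push Not at hcon
  let _ : CommGroup S := { (inferInstance : Group S) with mul_comm := hcon }
  have h1 : (Nat.card S).Prime := IsSimpleGroup.prime_card
  have : Finite S := Nat.finite_of_card_ne_zero h1.ne_zero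
  exact not_finite S

end Pool.Agent.Work.MP_302c96_al.Str
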