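import Pool.Agent.Work.MP_302c96_al.Str.Res
import Pool.Agent.Work.MP_302c96_al.Str.Simp

/-! The finite residual of a counterexample is a finite direct power of a simple group. -/

set_option autoImplicit false

open scoped commutatorElement

namespace Pool.Agent.Work.MP_302c96_al.Str

open Pool.Agent.Work.MP_302c96_al.Mal

universe u

variable {G : Type u} [Group G] {a x : G}

/-- the core of a proper subgroup of the residual is trivial -/
lemma core_bot (h : Ctx a x) {L : Subgroup G} (hL : Amb a L) (K : Subgroup G) (hK : K ≤ Rs G)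
    (hne : K ≠ Rs G) : K.normalCore = ⊥ := by
  by_contra h0
  have h1 := Rs_min h hL K.normalCore (K.normalCore_le.trans hK) h0
  exact hne (le_antisymm hK (by
    calc Rs G = K.normalCore := h1.symm
      _ ≤ K := K.normalCore_le))

/-- finitely many conjugates of `K` have trivial intersection, first case -/
lemma fam_top (h : Ctx a x) {L : Subgroup G} (hL : Amb a L)
    (K : Subgroup G) (hK : K ≤ Rs G) (hne : K ≠ Rs G)
    (hnorm : ∀ d ∈ Rs G, ∀ k ∈ K, d * k * d⁻¹ ∈ K) :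
    ∀ d : G, (∀ i : G ⧸ Rs G, i.out⁻¹ * d * i.out ∈ K) → d = 1 := by
  intro d hd
  have hcore := core_bot h hL K hK hne
  have : d ∈ K.normalCore := by
    intro g
    have h1 : (((g⁻¹ : G) : G ⧸ Rs G).out)⁻¹ * g⁻¹ ∈ Rs G := by
      rw [← QuotientGroup.eq]
      exact QuotientGroup.out_eq' _
    have h2 := hd ((g⁻¹ : G) : G ⧸ Rs G)
    have h3 := hnorm _ ((Rs G).inv_mem h1) _ h2
    have e : ((((g⁻¹ : G) : G ⧸ Rs G).out)⁻¹ * g⁻¹)⁻¹ *
        ((((g⁻¹ : G) : G ⧸ Rs G).out)⁻¹ * d * ((g⁻¹ : G) : G ⧸ Rs G).out) *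
        ((((g⁻¹ : G) : G ⧸ Rs G).out)⁻¹ * g⁻¹)⁻¹⁻¹ = g * d * g⁻¹ := by
      generalize ((g⁻¹ : G) : G ⧸ Rs G).out = o
      group
    rwa [e] at h3
  rw [hcore, Subgroup.mem_bot] at this
  exact this

/-- second case -/
lemma fam_comm (h : Ctx a x) {L : Subgroup G} (hL : Amb a L)
    (hA : ∀ n : ℤ, a ^ n ∈ commutator G → n = 0) (hx : x ∈ commutator G)
    (K : Subgroup G) (hK : K ≤ Rs G) (hne : K ≠ Rs G)
    (hnorm : ∀ d ∈ Rs G, ∀ k ∈ K, d * k * d⁻¹ ∈ K) :
    ∃ M : ℕ, ∀ d ∈ commutator G,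
      (∀ (j : Fin (M + 1)) (q : commutator G ⧸ (Rs G).subgroupOf (commutator G)),
        (a ^ (j : ℕ) * (q.out : G))⁻¹ * d * (a ^ (j : ℕ) * (q.out : G)) ∈ K) → d = 1 := by
  have hcore := core_bot h hL K hK hne
  have hNn : (commutator G).Normal := inferInstance
  obtain ⟨M, hM⟩ := window h hNn hx hA
  refine ⟨M, fun d hd hall => ?_⟩
  -- the predicate `P`
  obtain ⟨P, hP⟩ : ∃ P : G → Prop, P = fun u => ∀ n ∈ commutator G, n⁻¹ * u * n ∈ K := ⟨_, rfl⟩
  have hPm : ∀ u w, P u → P w → P (u * w) := by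
    rw [hP]
    intro u w hu hw n hn
    have := K.mul_mem (hu n hn) (hw n hn)
    have e : n⁻¹ * u * n * (n⁻¹ * w * n) = n⁻¹ * (u * w) * n := by group
    rwa [e] at this
  have hPi : ∀ u, P u → P u⁻¹ := by
    rw [hP]
    intro u hu n hn
    have := K.inv_mem (hu n hn)
    have e : (n⁻¹ * u * n)⁻¹ = n⁻¹ * u⁻¹ * n := by group
    rwa [e] at this
  have hPc : ∀ u, ∀ m ∈ commutator G, P u → P (m * u * m⁻¹) := by
    rw [hP]
    intro u m hm hu n hn
    have := hu (m⁻¹ * n) ((commutator G).mul_mem ((commutator G).inv_mem hm) hn)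
    have e : (m⁻¹ * n)⁻¹ * u * (m⁻¹ * n) = n⁻¹ * (m * u * m⁻¹) * n := by group
    rwa [e] at this
  have hP1 : P 1 := by
    rw [hP]
    intro n _
    have e : n⁻¹ * 1 * n = 1 := by group
    rw [e]
    exact K.one_mem
  -- the hypothesis gives `P` for the conjugates
  have hPj : ∀ j : ℤ, 0 ≤ j → j ≤ M → P (a ^ (-j) * d * a ^ j) := by
    intro j hj0 hjM
    rw [hP]
    intro n hn
    have h1 : ((((⟨n, hn⟩ : commutator G) : commutator G ⧸ (Rs G).subgroupOf (commutator G)).out : commutator G) : G)⁻¹ * n ∈ Rs G := by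
      have h2 : ((((⟨n, hn⟩ : commutator G) : commutator G ⧸ (Rs G).subgroupOf (commutator G)).out : commutator G) : commutator G ⧸ (Rs G).subgroupOf (commutator G)) = ((⟨n, hn⟩ : commutator G) : commutator G ⧸ (Rs G).subgroupOf (commutator G)) := QuotientGroup.out_eq' _
      rw [QuotientGroup.eq, Subgroup.mem_subgroupOf] at h2
      exact h2
    have h2 := hall ⟨j.toNat, by omega⟩ ((⟨n, hn⟩ : commutator G) : commutator G ⧸ (Rs G).subgroupOf (commutator G))
    have h3 : a ^ j.toNat = a ^ j := by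
      rw [← zpow_natCast]
      congr 1
      omega
    have h4 := hnorm _ ((Rs G).inv_mem h1) _ h2
    have h5 : (((⟨j.toNat, by omega⟩ : Fin (M + 1)) : ℕ)) = j.toNat := rfl
    rw [h5, h3] at h4
    have e : ∀ o : G, (o⁻¹ * n)⁻¹ * ((a ^ j * o)⁻¹ * d * (a ^ j * o)) * (o⁻¹ * n)⁻¹⁻¹ =
        n⁻¹ * (a ^ (-j) * d * a ^ j) * n := by
      intro o
      rw [zpow_neg]
      group
    rwa [e] at h4
  obtain ⟨i, i', hdi⟩ := mem_form h.cov hNn hx hA hd
  have hXN : ∀ n, X a x n ∈ commutator G := by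
    intro n
    unfold X
    rw [zpow_neg]
    exact hNn.conj_mem x hx _
  have hdj : ∀ j : ℤ, a ^ (-j) * d * a ^ j = X a x (i - j) * (X a x (i' - j))⁻¹ := by
    intro j
    have h1 : a ^ (-j) * d * a ^ j =
        (a ^ (-j) * X a x i * a ^ (-(-j))) * (a ^ (-j) * X a x i' * a ^ (-(-j)))⁻¹ := by
      rw [hdi, neg_neg, zpow_neg]
      group
    rw [h1, X_conj, X_conj, show -j + i = i - j by ring, show -j + i' = i' - j by ring]
  obtain ⟨s, hs⟩ : ∃ s : ℤ, s = i' - i := ⟨_, rfl⟩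
  -- the equaliser
  let E : Subgroup G :=
    { carrier := {y | y ∈ commutator G ∧ P (a ^ s * y * a ^ (-s) * y⁻¹)}
      one_mem' := by
        refine ⟨(commutator G).one_mem, ?_⟩
        have e : a ^ s * 1 * a ^ (-s) * (1 : G)⁻¹ = 1 := by
          rw [zpow_neg]
          group
        rw [e]
        exact hP1
      mul_mem' := by
        rintro y z ⟨hy, hPy⟩ ⟨hz, hPz⟩
        refine ⟨(commutator G).mul_mem hy hz, ?_⟩
        have e : a ^ s * (y * z) * a ^ (-s) * (y * z)⁻¹ =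
            ((a ^ s * y * a ^ (-s)) * (a ^ s * z * a ^ (-s) * z⁻¹) * (a ^ s * y * a ^ (-s))⁻¹) *
              (a ^ s * y * a ^ (-s) * y⁻¹) := by
          rw [zpow_neg]
          group
        rw [e]
        refine hPm _ _ (hPc _ _ ?_ hPz) hPy
        rw [zpow_neg]
        exact hNn.conj_mem y hy _
      inv_mem' := by
        rintro y ⟨hy, hPy⟩
        refine ⟨(commutator G).inv_mem hy, ?_⟩
        have e : a ^ s * y⁻¹ * a ^ (-s) * y⁻¹⁻¹ =
            (a ^ s * y * a ^ (-s))⁻¹ * (a ^ s * y * a ^ (-s) * y⁻¹)⁻¹ * (a ^ s * y * a ^ (-s))⁻¹⁻¹ := by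
          rw [zpow_neg]
          group
        rw [e]
        refine hPc _ _ ((commutator G).inv_mem ?_) (hPi _ hPy)
        rw [zpow_neg]
        exact hNn.conj_mem y hy _ }
  have hEX : ∀ m : ℤ, i - M ≤ m → m ≤ i - M + M → X a x m ∈ E := by
    intro m hm1 hm2
    refine ⟨hXN m, ?_⟩
    rw [X_conj]
    have h1 := hPi _ (hPj (i - m) (by omega) (by omega))
    rw [hdj, mul_inv_rev, inv_inv] at h1
    have e1 : i' - (i - m) = s + m := by omega
    have e2 : i - (i - m) = m := by omega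
    rw [e1, e2] at h1
    exact h1
  have hNE : commutator G ≤ E := by
    have h1 : W a x (i - M) (i - M + M) ≤ E := by
      unfold W
      rw [Subgroup.closure_le]
      rintro g ⟨k, hk1, hk2, rfl⟩
      exact hEX k hk1 hk2
    rwa [← hM (i - M)] at h1
  have hcm : d ∈ K.normalCore := by
    intro g
    obtain ⟨k, c, hc, hg⟩ := form_comm h g⁻¹
    obtain ⟨n, hn⟩ : ∃ n, n = a ^ (-k) * c * a ^ k := ⟨_, rfl⟩
    have hnN : n ∈ commutator G := by
      rw [hn]
      have := hNn.conj_mem c hc (a ^ (-k))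
      rwa [← zpow_neg, neg_neg] at this
    have hg2 : g⁻¹ = a ^ k * n := by
      rw [hg, hn, zpow_neg]
      group
    have h1 := (hNE (hXN (i - k))).2
    rw [X_conj] at h1
    have h2 := hPi _ h1
    rw [mul_inv_rev, inv_inv] at h2
    have e1 : s + (i - k) = i' - k := by omega
    rw [e1, ← hdj, hP] at h2
    have h3 := h2 n hnN
    have e : n⁻¹ * (a ^ (-k) * d * a ^ k) * n = g * d * g⁻¹ := by
      have : g = (a ^ k * n)⁻¹ := by rw [← hg2, inv_inv]
      rw [this, zpow_neg]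
      group
    rwa [e] at h3
  rw [hcore, Subgroup.mem_bot] at hcm
  exact hcm

/-- finitely many conjugates have trivial intersection -/
lemma fam (h : Ctx a x) {L : Subgroup G} (hL : Amb a L) (K : Subgroup G) (hK : K ≤ Rs G)
    (hne : K ≠ Rs G) (hnorm : ∀ d ∈ Rs G, ∀ k ∈ K, d * k * d⁻¹ ∈ K) :
    ∃ (ι : Type u) (_ : Finite ι) (γ : ι → G), ∀ d ∈ Rs G, (∀ i, (γ i)⁻¹ * d * γ i ∈ K) → d = 1 := by
  rcases hL.cases with ⟨_, hfi⟩ | ⟨hC, hA⟩
  · exact ⟨G ⧸ Rs G, inferInstance, fun i => i.out,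
      fun d _ hd => fam_top h hL K hK hne hnorm d hd⟩
  · obtain ⟨c, hc, hx⟩ := gauge h
    obtain ⟨M, hM⟩ := fam_comm hc hL hA hx K hK hne hnorm
    have hfin : ((Rs G).subgroupOf (commutator G)).FiniteIndex := by
      refine ⟨?_⟩
      have := hL.rel
      rwa [hC] at this
    refine ⟨ULift.{u} (Fin (M + 1)) × (commutator G ⧸ (Rs G).subgroupOf (commutator G)), inferInstance,
      fun t => a ^ (t.1.down : ℕ) * (t.2.out : G), ?_⟩
    intro d hd hall
    have hle := hL.le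
    rw [hC] at hle
    exact hM d (hle hd) fun j q => hall (⟨j⟩, q)

/-- The centre of the quotient by the residual has finite index. -/
lemma Rs_central (h : Ctx a x) (hD : Rs G ≠ ⊥) :
    ∃ Z : Subgroup G, Z.FiniteIndex ∧ ∀ z ∈ Z, ∀ g : G, ⁅z, g⁆ ∈ Rs G := by
  have hfi := (I_Quot I_Central I_Index a x h.cov h.inf (Rs G) hD).1
  refine ⟨(Subgroup.center (G ⧸ Rs G)).comap (QuotientGroup.mk' (Rs G)), ⟨?_⟩, ?_⟩
  · rw [Subgroup.index_comap_of_surjective _ (QuotientGroup.mk'_surjective (Rs G))]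
    exact hfi.index_ne_zero
  · intro z hz g
    have h1 : QuotientGroup.mk' (Rs G) g * QuotientGroup.mk' (Rs G) z =
        QuotientGroup.mk' (Rs G) z * QuotientGroup.mk' (Rs G) g :=
      Subgroup.mem_center_iff.1 hz _
    rw [← QuotientGroup.eq_one_iff]
    show QuotientGroup.mk' (Rs G) ⁅z, g⁆ = 1
    rw [map_commutatorElement, commutatorElement_eq_one_iff_mul_comm, h1]

/-- The residual is contained in every nontrivial normal subgroup. -/
lemma Rs_le_normal (h : Ctx a x) (hD : Rs G ≠ ⊥) (M : Subgroup G) [hM : M.Normal] (hM1 : M ≠ ⊥) :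
    Rs G ≤ M := by
  obtain ⟨L, hL⟩ := exists_amb h hD
  by_cases h0 : Rs G ⊓ M = ⊥
  · exfalso
    have hfi := (I_Quot I_Central I_Index a x h.cov h.inf M hM1).1
    have hZ : ((Subgroup.center (G ⧸ M)).comap (QuotientGroup.mk' M)).FiniteIndex := by
      refine ⟨?_⟩
      rw [Subgroup.index_comap_of_surjective _ (QuotientGroup.mk'_surjective M)]
      exact hfi.index_ne_zero
    apply hD
    apply no_ab h (Rs G) inferInstance
    intro s hs t ht
    have h1 : QuotientGroup.mk' M t * QuotientGroup.mk' M s =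
        QuotientGroup.mk' M s * QuotientGroup.mk' M t :=
      Subgroup.mem_center_iff.1 (Rs_le hZ hs) _
    have h2 : ⁅s, t⁆ ∈ M := by
      rw [← QuotientGroup.eq_one_iff]
      show QuotientGroup.mk' M ⁅s, t⁆ = 1
      rw [map_commutatorElement, commutatorElement_eq_one_iff_mul_comm, h1]
    have h3 : ⁅s, t⁆ ∈ Rs G := by
      rw [commutatorElement_def]
      exact (Rs G).mul_mem ((Rs G).mul_mem ((Rs G).mul_mem hs ht) ((Rs G).inv_mem hs))
        ((Rs G).inv_mem ht)
    have h4 : ⁅s, t⁆ ∈ Rs G ⊓ M := ⟨h3, h2⟩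
    rwa [h0, Subgroup.mem_bot, commutatorElement_eq_one_iff_mul_comm] at h4
  · have h1 := Rs_min h hL (Rs G ⊓ M) inf_le_left h0
    calc Rs G = Rs G ⊓ M := h1.symm
      _ ≤ M := inf_le_right

/-- The residual is a finite direct power of a finitely generated infinite simple group. -/
theorem decomp (h : Ctx a x) (hD : Rs G ≠ ⊥) :
    ∃ (S : Type u) (_ : Group S) (n : ℕ), 0 < n ∧ IsSimpleGroup S ∧ Infinite S ∧ Group.FG S ∧
      Nonempty (Rs G ≃* (Fin n → S)) := by
  classical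
  obtain ⟨L, hL⟩ := exists_amb h hD
  have hfg := Rs_fg hL
  have hnt : Nontrivial (Rs G) := (Subgroup.nontrivial_iff_ne_bot _).2 hD
  obtain ⟨K, hKn, hKtop, hKmax⟩ := exists_max_normal hfg hnt
  have hS := simple_quot K hKtop hKmax
  obtain ⟨K0, hK0⟩ : ∃ K0 : Subgroup G, K0 = K.map (Rs G).subtype := ⟨_, rfl⟩
  have hmem : ∀ d : Rs G, (d : G) ∈ K0 ↔ d ∈ K := by
    intro d
    rw [hK0]
    exact Subgroup.mem_map_iff_mem (f := (Rs G).subtype) (Rs G).subtype_injective
  have hK0le : K0 ≤ Rs G := by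
    rw [hK0]
    exact Subgroup.map_subtype_le K
  have hK0ne : K0 ≠ Rs G := by
    intro h1
    apply hKtop
    rw [eq_top_iff]
    intro d _
    rw [← hmem, h1]
    exact d.2
  have hinf : Infinite (Rs G ⧸ K) := by
    by_contra hfin
    have := not_infinite_iff_finite.1 hfin
    have hKfi : K.FiniteIndex := Subgroup.finiteIndex_of_finite_quotient
    apply hK0ne
    apply Rs_no_fin hL K0 hK0le
    have h2 : K0.subgroupOf (Rs G) = K := by
      ext d
      rw [Subgroup.mem_subgroupOf, hmem]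
    show (K0.subgroupOf (Rs G)).index ≠ 0
    rw [h2]
    exact hKfi.index_ne_zero
  have hna := simple_na hS hinf
  have hnorm : ∀ d ∈ Rs G, ∀ k ∈ K0, d * k * d⁻¹ ∈ K0 := by
    intro d hd k hk
    have h1 : (⟨k, hK0le hk⟩ : Rs G) ∈ K := by
      rw [← hmem]
      exact hk
    have h2 := hKn.conj_mem _ h1 ⟨d, hd⟩
    rw [← hmem] at h2
    exact h2
  obtain ⟨ι, _, γ, hγ⟩ := fam h hL K0 hK0le hK0ne hnorm
  let φ : ι → (Rs G →* Rs G ⧸ K) := fun i =>
    (QuotientGroup.mk' K).comp (MulAut.conjNormal (γ i)⁻¹ : MulAut (Rs G)).toMonoidHom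
  have hφs : ∀ i, Function.Surjective (φ i) := fun i =>
    (QuotientGroup.mk'_surjective K).comp (MulAut.conjNormal (γ i)⁻¹ : MulAut (Rs G)).surjective
  have hφk : ∀ i (d : Rs G), d ∈ (φ i).ker ↔ (γ i)⁻¹ * (d : G) * γ i ∈ K0 := by
    intro i d
    rw [MonoidHom.mem_ker]
    show QuotientGroup.mk' K ((MulAut.conjNormal (γ i)⁻¹ : MulAut (Rs G)) d) = 1 ↔ _
    rw [show (QuotientGroup.mk' K ((MulAut.conjNormal (γ i)⁻¹ : MulAut (Rs G)) d) = 1) ↔
      ((MulAut.conjNormal (γ i)⁻¹ : MulAut (Rs G)) d) ∈ K from QuotientGroup.eq_one_iff _, ← hmem,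
      MulAut.conjNormal_apply, inv_inv]
  have hfin : (Set.range fun i => (φ i).ker).Finite := Set.finite_range _
  obtain ⟨e⟩ := crt hS hna hfin.toFinset (by
      intro K' hK'
      rw [Set.Finite.mem_toFinset] at hK'
      obtain ⟨i, rfl⟩ := hK'
      exact ⟨φ i, hφs i, rfl⟩) (by
      intro d hd
      apply Subtype.ext
      refine hγ d.1 d.2 fun i => ?_
      rw [← hφk]
      exact hd _ (by rw [Set.Finite.mem_toFinset]; exact ⟨i, rfl⟩))
  refine ⟨Rs G ⧸ K, inferInstance, _, ?_, hS, hinf, inferInstance, ⟨e⟩⟩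
  by_contra h0
  have h1 : hfin.toFinset.card = 0 := by omega
  obtain ⟨u, w, huw⟩ := hnt.exists_pair_ne
  apply huw
  apply e.injective
  have : IsEmpty (Fin hfin.toFinset.card) := by
    rw [h1]
    infer_instance
  exact Subsingleton.elim _ _

/-- If the residual has finite index, it is simple. -/
theorem decomp_one (h : Ctx a x) (hfi : (Rs G).FiniteIndex) {S : Type u} [Group S]
    (hS : IsSimpleGroup S) (hinf : Infinite S) (n : ℕ) (hn : 0 < n) (e : Rs G ≃* (Fin n → S)) :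
    n = 1 := by
  classical
  by_contra hn1
  obtain ⟨s0, t0, hst⟩ := simple_na hS hinf
  let i0 : Fin n := ⟨0, hn⟩
  let i1 : Fin n := ⟨1, by omega⟩
  have hi01 : i0 ≠ i1 := by
    intro h0
    have := congrArg Fin.val h0
    simp [i0, i1] at this
  obtain ⟨m, hm0, hm⟩ : ∃ m : ℕ, m ≠ 0 ∧ a ^ m ∈ Rs G :=
    ⟨(Rs G).index, hfi.index_ne_zero, Subgroup.pow_index_mem (Rs G) a⟩
  obtain ⟨w, hw⟩ : ∃ w, w = e ⟨a ^ m, hm⟩ := ⟨_, rfl⟩
  -- elements commuting with `a ^ m` are powers of `a`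
  have hcent : ∀ y : Fin n → S, y * w = w * y → ∃ k : ℤ, ((e.symm y : Rs G) : G) = a ^ k := by
    intro y hy
    have h1 : (e.symm y) * ⟨a ^ m, hm⟩ = ⟨a ^ m, hm⟩ * (e.symm y) := by
      apply e.injective
      rw [map_mul, map_mul, MulEquiv.apply_symm_apply, ← hw, hy]
    have h2 : ((e.symm y : Rs G) : G) * a ^ m = a ^ m * ((e.symm y : Rs G) : G) :=
      congrArg Subtype.val h1
    refine h.mal _ m m (by exact_mod_cast hm0) ?_
    rw [zpow_natCast, h2, mul_inv_cancel_right]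
  have hsing : ∀ (i : Fin n) (s : S), s * w i = w i * s →
      (Pi.mulSingle i s : Fin n → S) * w = w * (Pi.mulSingle i s : Fin n → S) := by
    intro i s hs
    funext j
    rw [Pi.mul_apply, Pi.mul_apply]
    by_cases hj : j = i
    · subst hj
      rw [Pi.mulSingle_eq_same, hs]
    · rw [Pi.mulSingle_eq_of_ne hj, one_mul, mul_one]
  -- no coordinate of `w` is trivial
  have hw1 : ∀ i, w i ≠ 1 := by
    intro i hi
    obtain ⟨k, hk⟩ := hcent _ (hsing i s0 (by rw [hi, one_mul, mul_one]))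
    obtain ⟨l, hl⟩ := hcent _ (hsing i t0 (by rw [hi, one_mul, mul_one]))
    apply hst
    have h1 : (e.symm (Pi.mulSingle i s0) : Rs G) * e.symm (Pi.mulSingle i t0) =
        e.symm (Pi.mulSingle i t0) * e.symm (Pi.mulSingle i s0) := by
      apply Subtype.ext
      show ((e.symm (Pi.mulSingle i s0) : Rs G) : G) * ((e.symm (Pi.mulSingle i t0) : Rs G) : G) =
        ((e.symm (Pi.mulSingle i t0) : Rs G) : G) * ((e.symm (Pi.mulSingle i s0) : Rs G) : G)
      rw [hk, hl, ← zpow_add, ← zpow_add, add_comm]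
    rw [← map_mul, ← map_mul] at h1
    have h2 := congrFun (e.symm.injective h1) i
    rwa [Pi.mul_apply, Pi.mul_apply, Pi.mulSingle_eq_same, Pi.mulSingle_eq_same] at h2
  obtain ⟨k, hk⟩ := hcent _ (hsing i0 (w i0) rfl)
  obtain ⟨l, hl⟩ := hcent _ (hsing i1 (w i1) rfl)
  have hk0 : k ≠ 0 := by
    rintro rfl
    rw [zpow_zero] at hk
    have h1 : e.symm (Pi.mulSingle i0 (w i0)) = 1 := Subtype.ext hk
    have h2 : (Pi.mulSingle i0 (w i0) : Fin n → S) = 1 := by
      rw [← e.apply_symm_apply (Pi.mulSingle i0 (w i0)), h1, map_one]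
    have h3 := congrFun h2 i0
    rw [Pi.mulSingle_eq_same] at h3
    exact hw1 i0 h3
  have hl0 : l ≠ 0 := by
    rintro rfl
    rw [zpow_zero] at hl
    have h1 : e.symm (Pi.mulSingle i1 (w i1)) = 1 := Subtype.ext hl
    have h2 : (Pi.mulSingle i1 (w i1) : Fin n → S) = 1 := by
      rw [← e.apply_symm_apply (Pi.mulSingle i1 (w i1)), h1, map_one]
    have h3 := congrFun h2 i1
    rw [Pi.mulSingle_eq_same] at h3
    exact hw1 i1 h3
  have h1 : (e.symm (Pi.mulSingle i0 (w i0))) ^ l = (e.symm (Pi.mulSingle i1 (w i1))) ^ k := by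
    apply Subtype.ext
    rw [Subgroup.coe_zpow, Subgroup.coe_zpow, hk, hl, ← zpow_mul, ← zpow_mul, mul_comm]
  rw [← map_zpow, ← map_zpow] at h1
  have h2 := congrFun (e.symm.injective h1) i0
  rw [Pi.pow_apply, Pi.pow_apply, Pi.mulSingle_eq_same, Pi.mulSingle_eq_of_ne hi01, one_zpow] at h2
  have h3 : (e.symm (Pi.mulSingle i0 (w i0))) ^ l = 1 := by
    rw [← map_zpow]
    have h4 : (Pi.mulSingle i0 (w i0) : Fin n → S) ^ l = 1 := by
      funext j
      rw [Pi.pow_apply]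
      by_cases hj : j = i0
      · subst hj
        rw [Pi.mulSingle_eq_same, h2]
        rfl
      · rw [Pi.mulSingle_eq_of_ne hj, one_zpow]
        rfl
    rw [h4, map_one]
  have h4 := congrArg Subtype.val h3
  rw [Subgroup.coe_zpow, hk, ← zpow_mul] at h4
  have h5 := h.inf _ h4
  rcases mul_eq_zero.1 h5 with h6 | h6
  · exact hk0 h6
  · exact hl0 h6

end Pool.Agent.Work.MP_302c96_al.Str
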