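import Pool.Agent.Work.MP_302c96_al.Str.Quo

/-! Elementary amenable groups and groups all of whose infinite finitely generated subgroups
virtually map onto the integers. -/

set_option autoImplicit false

open scoped commutatorElement

namespace Pool.Agent.Work.MP_302c96_al.Str

open Pool.Agent.Work.MP_302c96_al.Mal

universe u

/-- Some subgroup of finite index has a nontrivial homomorphism to the infinite cyclic group. -/
def VirtIndic (H : Type u) [Group H] : Prop :=
  ∃ K : Subgroup H, K.FiniteIndex ∧ ∃ f : K →* Multiplicative ℤ, f ≠ 1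

/-- The class of elementary amenable groups: the smallest class of groups that contains the finite
and the abelian groups and is closed under isomorphisms, subgroups, quotients, extensions and
directed unions. -/
inductive ElemAmen : ∀ (G : Type u) [Group G], Prop
  | finite (G : Type u) [Group G] : Finite G → ElemAmen G
  | abelian (G : Type u) [Group G] : (∀ g k : G, g * k = k * g) → ElemAmen G
  | iso (G H : Type u) [Group G] [Group H] : (G ≃* H) → ElemAmen G → ElemAmen H
  | subgroup (G : Type u) [Group G] (H : Subgroup G) : ElemAmen G → ElemAmen H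
  | quotient (G : Type u) [Group G] (N : Subgroup G) [N.Normal] : ElemAmen G → ElemAmen (G ⧸ N)
  | extension (G : Type u) [Group G] (N : Subgroup G) [N.Normal] :
      ElemAmen N → ElemAmen (G ⧸ N) → ElemAmen G
  | union (G : Type u) [Group G] (S : Set (Subgroup G)) : S.Nonempty → DirectedOn (· ≤ ·) S →
      (∀ H ∈ S, ElemAmen H) → (∀ g : G, ∃ H ∈ S, g ∈ H) → ElemAmen G

/-- Every infinite finitely generated section is virtually indicable. -/
def Sec (G : Type u) [Group G] : Prop :=
  ∀ (H : Subgroup G) (Q : Type u) [Group Q] (f : H →* Q), Function.Surjective f → Group.FG Q →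
    Infinite Q → VirtIndic Q

lemma vi_surj {Q R : Type u} [Group Q] [Group R] (f : Q →* R) (hf : Function.Surjective f)
    (h : VirtIndic R) : VirtIndic Q := by
  obtain ⟨K, hK, φ, hφ⟩ := h
  refine ⟨K.comap f, ⟨?_⟩, φ.comp (f.subgroupComap K), ?_⟩
  · rw [Subgroup.index_comap_of_surjective K hf]
    exact hK.index_ne_zero
  · intro h0
    apply hφ
    ext ⟨k, hk⟩
    obtain ⟨q, rfl⟩ := hf k
    have := DFunLike.congr_fun h0 (⟨q, hk⟩ : K.comap f)
    exact this

lemma vi_fin {Q : Type u} [Group Q] (M : Subgroup Q) (hM : M.FiniteIndex)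
    (h : VirtIndic M) : VirtIndic Q := by
  obtain ⟨K, hK, φ, hφ⟩ := h
  let e : K ≃* K.map M.subtype := K.equivMapOfInjective M.subtype M.subtype_injective
  refine ⟨K.map M.subtype, ⟨?_⟩, φ.comp e.symm.toMonoidHom, ?_⟩
  · rw [Subgroup.index_map_subtype]
    exact mul_ne_zero hK.index_ne_zero hM.index_ne_zero
  · intro h0
    apply hφ
    ext k
    have := DFunLike.congr_fun h0 (e k)
    simpa using this

lemma vi_abelian {Q : Type u} [CommGroup Q] (hfg : Group.FG Q) (hi : Infinite Q) : VirtIndic Q := by
  obtain ⟨ι, j, _, _, p, hp, e, ⟨φ⟩⟩ := CommGroup.equiv_free_prod_prod_multiplicative_zmod Q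
  by_cases hj : Nonempty j
  · obtain ⟨j0⟩ := hj
    let ψ : Q →* Multiplicative ℤ :=
      (Pi.evalMonoidHom (fun _ : j => Multiplicative ℤ) j0).comp
        ((MonoidHom.fst _ _).comp φ.toMonoidHom)
    refine ⟨⊤, inferInstance, ψ.comp (Subgroup.subtype ⊤), ?_⟩
    intro h0
    classical
    let q : Q := φ.symm (Pi.mulSingle j0 (Multiplicative.ofAdd 1), 1)
    have h1 := DFunLike.congr_fun h0 (⟨q, Subgroup.mem_top q⟩ : (⊤ : Subgroup Q))
    have h2 : (Pi.mulSingle j0 (Multiplicative.ofAdd (1 : ℤ)) : j → Multiplicative ℤ) j0 = 1 := by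
      have h3 : ψ q = (Pi.mulSingle j0 (Multiplicative.ofAdd (1 : ℤ)) : j → Multiplicative ℤ) j0 := by
        show (φ (φ.symm _)).1 j0 = _
        rw [MulEquiv.apply_symm_apply]
      rw [← h3]
      exact h1
    rw [Pi.mulSingle_eq_same] at h2
    have h4 : (1 : ℤ) = 0 := Multiplicative.ofAdd.injective h2
    exact absurd h4 one_ne_zero
  · exfalso
    rw [not_nonempty_iff] at hj
    have : ∀ i, NeZero (p i ^ e i) := fun i => ⟨pow_ne_zero _ (hp i).ne_zero⟩
    have : ∀ i, Finite (Multiplicative (ZMod (p i ^ e i))) := fun i =>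
      Finite.of_equiv (ZMod (p i ^ e i)) Multiplicative.ofAdd
    have : Finite Q := Finite.of_equiv _ φ.symm.toEquiv
    exact not_finite Q

theorem ElemAmen.sec {G : Type u} [Group G] (h : ElemAmen G) : Sec G := by
  induction h with
  | finite G hG =>
    intro H Q _ f hf _ hi
    exfalso
    have : Finite Q := Finite.of_surjective f hf
    exact not_finite Q
  | abelian G hG =>
    intro H Q _ f hf hfg hi
    let _ : CommGroup Q := { (inferInstance : Group Q) with
      mul_comm := fun q r => by
        obtain ⟨g, rfl⟩ := hf q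
        obtain ⟨k, rfl⟩ := hf r
        rw [← map_mul, ← map_mul]
        congr 1
        exact Subtype.ext (hG g.1 k.1) }
    exact vi_abelian hfg hi
  | iso G H e _ ih =>
    intro K Q _ f hf hfg hi
    let ψ : K.comap (e : G →* H) →* K := (e : G →* H).subgroupComap K
    have hψ : Function.Surjective ψ := by
      rintro ⟨k, hk⟩
      refine ⟨⟨e.symm k, ?_⟩, ?_⟩
      · show e (e.symm k) ∈ K
        rwa [MulEquiv.apply_symm_apply]
      · apply Subtype.ext
        show e (e.symm k) = k
        rw [MulEquiv.apply_symm_apply]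
    exact ih (K.comap (e : G →* H)) Q (f.comp ψ) (hf.comp hψ) hfg hi
  | subgroup G H _ ih =>
    intro K Q _ f hf hfg hi
    let e : K ≃* K.map H.subtype := K.equivMapOfInjective H.subtype H.subtype_injective
    exact ih (K.map H.subtype) Q (f.comp e.symm.toMonoidHom) (hf.comp e.symm.surjective) hfg hi
  | quotient G N _ ih =>
    intro K Q _ f hf hfg hi
    let ψ : K.comap (QuotientGroup.mk' N) →* K := (QuotientGroup.mk' N).subgroupComap K
    have hψ : Function.Surjective ψ := by
      rintro ⟨k, hk⟩
      obtain ⟨g, rfl⟩ := QuotientGroup.mk'_surjective N k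
      exact ⟨⟨g, hk⟩, rfl⟩
    exact ih (K.comap (QuotientGroup.mk' N)) Q (f.comp ψ) (hf.comp hψ) hfg hi
  | extension G N _ _ ihN ihQ =>
    intro H Q _ f hf hfg hi
    -- the image of `H ∩ N`
    have hMn : ((N.subgroupOf H).map f).Normal := Subgroup.Normal.map inferInstance f hf
    obtain ⟨M, hMdef⟩ : ∃ M : Subgroup Q, M = (N.subgroupOf H).map f := ⟨_, rfl⟩
    rw [← hMdef] at hMn
    by_cases hfin : Finite (Q ⧸ M)
    · -- `M` has finite index
      have hMi : M.FiniteIndex := Subgroup.finiteIndex_of_finite_quotient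
      have hMfg : Group.FG M := inferInstance
      have hMinf : Infinite M := by
        by_contra hM
        have := not_infinite_iff_finite.1 hM
        have : Finite Q := (Subgroup.finite_iff_finite_and_finiteIndex M).2 ⟨this, hMi⟩
        exact not_finite Q
      apply vi_fin M hMi
      -- `M` is a quotient of the subgroup `H ∩ N` of `N`
      let ψ : H.subgroupOf N →* M :=
        { toFun := fun n => ⟨f ⟨n.1.1, n.2⟩, by
            rw [hMdef]
            exact ⟨⟨n.1.1, n.2⟩, n.1.2, rfl⟩⟩
          map_one' := by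
            apply Subtype.ext
            exact map_one f
          map_mul' := fun n n' => by
            apply Subtype.ext
            exact map_mul f ⟨n.1.1, n.2⟩ ⟨n'.1.1, n'.2⟩ }
      refine ihN (H.subgroupOf N) M ψ ?_ hMfg hMinf
      rintro ⟨m, hm⟩
      rw [hMdef] at hm
      obtain ⟨y, hy, rfl⟩ := hm
      exact ⟨⟨⟨y.1, hy⟩, y.2⟩, rfl⟩
    · have hinf : Infinite (Q ⧸ M) := not_finite_iff_infinite.1 hfin
      apply vi_surj (QuotientGroup.mk' M) (QuotientGroup.mk'_surjective M)
      -- `Q / M` is a quotient of the image of `H` in `G / N`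
      let π : H →* H.map (QuotientGroup.mk' N) := (QuotientGroup.mk' N).subgroupMap H
      have hπ : Function.Surjective π := (QuotientGroup.mk' N).subgroupMap_surjective H
      let q : H →* Q ⧸ M := (QuotientGroup.mk' M).comp f
      have hker : π.ker ≤ q.ker := by
        intro y hy
        rw [MonoidHom.mem_ker] at hy ⊢
        have h1 : QuotientGroup.mk' N y.1 = 1 := congrArg Subtype.val hy
        have h2 : y.1 ∈ N := (QuotientGroup.eq_one_iff _).1 h1
        show QuotientGroup.mk' M (f y) = 1
        have h3 : f y ∈ M := by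
          rw [hMdef]
          exact ⟨y, h2, rfl⟩
        exact (QuotientGroup.eq_one_iff _).2 h3
      let ψ : H.map (QuotientGroup.mk' N) →* Q ⧸ M := π.liftOfSurjective hπ ⟨q, hker⟩
      have hψ : ∀ y, ψ (π y) = q y := fun y =>
        MonoidHom.liftOfRightInverse_comp_apply _ _ _ _ _
      refine ihQ (H.map (QuotientGroup.mk' N)) (Q ⧸ M) ψ ?_ inferInstance hinf
      intro z
      obtain ⟨w, rfl⟩ := QuotientGroup.mk'_surjective M z
      obtain ⟨y, rfl⟩ := hf w
      exact ⟨π y, hψ y⟩
  | union G S hne hdir _ hcov ih =>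
    intro H Q _ f hf hfg hi
    obtain ⟨T, hT, hTfin⟩ := Group.fg_iff.1 hfg
    -- lift the generators
    have hex : ∀ T' : Set Q, T'.Finite → ∃ L ∈ S, ∀ t ∈ T', ∃ y : H, y.1 ∈ L ∧ f y = t := by
      intro T' hT'
      induction T', hT' using Set.Finite.induction_on with
      | empty =>
        obtain ⟨L, hL⟩ := hne
        exact ⟨L, hL, by simp⟩
      | @insert t T' _ _ ih' =>
        obtain ⟨L, hL, h1⟩ := ih'
        obtain ⟨y, hy⟩ := hf t
        obtain ⟨L', hL', h2⟩ := hcov y.1
        obtain ⟨L'', hL'', h3, h4⟩ := hdir L hL L' hL'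
        refine ⟨L'', hL'', ?_⟩
        rintro t' (rfl | ht')
        · exact ⟨y, h4 h2, hy⟩
        · obtain ⟨y', h5, h6⟩ := h1 t' ht'
          exact ⟨y', h3 h5, h6⟩
    obtain ⟨L, hL, hgen⟩ := hex T hTfin
    let ψ : H.subgroupOf L →* Q :=
      { toFun := fun n => f ⟨n.1.1, n.2⟩
        map_one' := map_one f
        map_mul' := fun n n' => map_mul f ⟨n.1.1, n.2⟩ ⟨n'.1.1, n'.2⟩ }
    refine ih L hL (H.subgroupOf L) Q ψ ?_ hfg hi
    rw [← MonoidHom.range_eq_top, eq_top_iff, ← hT, Subgroup.closure_le]
    intro t ht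
    obtain ⟨y, h1, h2⟩ := hgen t ht
    exact ⟨⟨⟨y.1, h1⟩, y.2⟩, h2⟩

/-- in an elementary amenable group all infinite finitely generated subgroups are virtually
indicable. -/
theorem ElemAmen.virt {G : Type u} [Group G] (h : ElemAmen G) (H : Subgroup G) (hfg : H.FG)
    (hi : Infinite H) : VirtIndic H :=
  h.sec H H (MonoidHom.id H) Function.surjective_id ((Group.fg_iff_subgroup_fg H).2 hfg) hi

end Pool.Agent.Work.MP_302c96_al.Str
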