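import Pool.Agent.Work.MP_302c96_al.Mal.All

/-! The kernel of the abelianisation is finitely generated. -/

set_option autoImplicit false

namespace Pool.Agent.Work.MP_302c96_al.Str

open Pool.Agent.Work.MP_302c96_al.Mal

universe u

/-- The open case: `G = A (x A x⁻¹) A`, `A = ⟨a⟩` infinite and malnormal, `x ∉ A`. -/
structure Ctx {G : Type u} [Group G] (a x : G) : Prop where
  cov : Cov a x
  inf : Inf a
  mal : Maln a
  ne : ¬ ∃ k : ℤ, x = a ^ k

/-- The conjugates of `x` by powers of `a`. -/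
def X {G : Type u} [Group G] (a x : G) (n : ℤ) : G := a ^ n * x * a ^ (-n)

section basic

variable {G : Type u} [Group G] {a x : G}

lemma X_zero : X a x 0 = x := by simp [X]

lemma X_conj (m n : ℤ) : a ^ m * X a x n * a ^ (-m) = X a x (m + n) := by
  unfold X
  rw [zpow_add, neg_add, add_comm (-m) (-n), zpow_add]
  simp only [mul_assoc]

lemma X_neg (n : ℤ) : X a⁻¹ x n = X a x (-n) := by
  unfold X
  rw [inv_zpow, ← zpow_neg, inv_zpow, ← zpow_neg]

lemma conj_mul' (m : ℤ) (y z : G) :
    a ^ m * (y * z) * a ^ (-m) = (a ^ m * y * a ^ (-m)) * (a ^ m * z * a ^ (-m)) := by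
  rw [zpow_neg]
  group

lemma conj_pow' (m : ℤ) (y : G) (k : ℤ) :
    a ^ m * y ^ k * a ^ (-m) = (a ^ m * y * a ^ (-m)) ^ k := by
  rw [zpow_neg, conj_zpow]

lemma conj_inj' (m : ℤ) {y z : G} (h : a ^ m * y * a ^ (-m) = a ^ m * z * a ^ (-m)) : y = z := by
  simpa using h

lemma x_ne (h : Ctx a x) : x ≠ 1 := fun h1 => h.ne ⟨0, by rw [h1, zpow_zero]⟩

lemma X_inj (h : Ctx a x) {m n : ℤ} (e : X a x m = X a x n) : m = n := by
  by_contra hne
  have h1 : x⁻¹ * a ^ (m - n) * x⁻¹⁻¹ = a ^ (m - n) := by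
    have h2 : a ^ (m - n) * x = x * a ^ (m - n) := by
      unfold X at e
      have h3 : a ^ (-n) * (a ^ m * x * a ^ (-m)) * a ^ m = a ^ (-n) * (a ^ n * x * a ^ (-n)) * a ^ m := by
        rw [e]
      have h4 : a ^ (-n) * (a ^ m * x * a ^ (-m)) * a ^ m = a ^ (m - n) * x := by
        rw [show m - n = -n + m by ring, zpow_add]
        simp [mul_assoc]
      have h5 : a ^ (-n) * (a ^ n * x * a ^ (-n)) * a ^ m = x * a ^ (m - n) := by
        rw [show m - n = -n + m by ring, zpow_add]
        simp [mul_assoc]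
      rw [← h4, ← h5, h3]
    rw [inv_inv, mul_assoc, h2, ← mul_assoc, inv_mul_cancel, one_mul]
  obtain ⟨k, hk⟩ := h.mal x⁻¹ (m - n) (m - n) (by omega) h1
  exact h.ne ⟨-k, by rw [zpow_neg, ← hk, inv_inv]⟩

lemma X_ne (h : Ctx a x) (n : ℤ) : X a x n ≠ 1 := by
  intro h1
  apply x_ne h
  have : a ^ n * x * a ^ (-n) = a ^ n * 1 * a ^ (-n) := by
    rw [mul_one, ← zpow_add, add_neg_cancel, zpow_zero]
    exact h1
  exact conj_inj' n this

lemma cov_inv (h : Cov a x) : Cov a⁻¹ x := by
  intro g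
  obtain ⟨i, j, k, hg⟩ := h g
  refine ⟨-i, -j, -k, ?_⟩
  simp only [inv_zpow', neg_neg]
  exact hg

lemma ctx_inv (h : Ctx a x) : Ctx a⁻¹ x := by
  refine ⟨cov_inv h.cov, ?_, ?_, ?_⟩
  · intro n hn
    rw [inv_zpow, inv_eq_one] at hn
    exact h.inf n hn
  · intro g n m hn hg
    rw [inv_zpow', inv_zpow'] at hg
    obtain ⟨k, hk⟩ := h.mal g (-n) (-m) (by omega) hg
    exact ⟨-k, by rw [inv_zpow', neg_neg]; exact hk⟩
  · rintro ⟨k, hk⟩
    exact h.ne ⟨-k, by rw [hk, inv_zpow']⟩

/-- elements of a normal subgroup containing `x` and meeting `⟨a⟩` trivially. -/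
lemma mem_form (hcov : Cov a x) {N : Subgroup G} (hN : N.Normal) (hx : x ∈ N)
    (hA : ∀ n : ℤ, a ^ n ∈ N → n = 0) {g : G} (hg : g ∈ N) :
    ∃ i j : ℤ, g = X a x i * (X a x j)⁻¹ := by
  obtain ⟨i, j, k, h⟩ := hcov g
  have hX : ∀ n, X a x n ∈ N := by
    intro n
    unfold X
    rw [zpow_neg]
    exact hN.conj_mem x hx _
  have e : g = X a x i * (X a x (i + j))⁻¹ * a ^ (i + j + k) := by
    rw [h]
    unfold X
    simp only [zpow_add, neg_add, mul_inv_rev, zpow_neg, inv_inv]
    group
  have h2 : a ^ (i + j + k) ∈ N := by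
    have h3 := N.mul_mem (N.inv_mem (N.mul_mem (hX i) (N.inv_mem (hX (i + j))))) hg
    rw [e] at h3
    rwa [inv_mul_cancel_left] at h3
  have h0 := hA _ h2
  rw [h0, zpow_zero, mul_one] at e
  exact ⟨i, i + j, e⟩

/-- the degenerate case: `x` has infinite order. -/
lemma deg_order (h : Ctx a x) {i : ℤ} (hi : i ≠ 0) (e : X a x i = x ^ (2 : ℤ)) :
    ∀ n : ℤ, x ^ n = 1 → n = 0 := by
  have key : ∀ r : ℕ, X a x (r * i) = x ^ ((2 : ℤ) ^ r) := by
    intro r
    induction r with
    | zero => simp [X]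
    | succ r ih =>
      have h1 : X a x ((r + 1 : ℕ) * i) = a ^ (i : ℤ) * X a x (r * i) * a ^ (-i) := by
        rw [X_conj]
        congr 1
        push_cast
        ring
      rw [h1, ih, conj_pow']
      have h2 : a ^ i * x * a ^ (-i) = x ^ (2 : ℤ) := e
      rw [h2, ← zpow_mul]
      congr 1
      ring
  intro n hn
  by_contra h0
  have hfin : IsOfFinOrder x := isOfFinOrder_iff_zpow_eq_one.2 ⟨n, h0, hn⟩
  have : Finite (Subgroup.zpowers x) := finite_zpowers.2 hfin
  let f : ℕ → Subgroup.zpowers x := fun r => ⟨x ^ ((2 : ℤ) ^ r), ⟨_, rfl⟩⟩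
  obtain ⟨r, s, hrs, hf⟩ := Finite.exists_ne_map_eq_of_infinite f
  have h1 : x ^ ((2 : ℤ) ^ r) = x ^ ((2 : ℤ) ^ s) := congrArg Subtype.val hf
  rw [← key, ← key] at h1
  have h2 := X_inj h h1
  have h3 : (r : ℤ) = s := mul_right_cancel₀ hi h2
  exact hrs (by exact_mod_cast h3)

/-- `a ^ n` conjugates `x` to `x ^ m` -/
def P (a x : G) (n m : ℤ) : Prop := X a x n = x ^ m

lemma P_mul {n m n' m' : ℤ} (h : P a x n m) (h' : P a x n' m') : P a x (n + n') (m * m') := by
  unfold P at *
  rw [← X_conj, h', conj_pow', show a ^ n * x * a ^ (-n) = X a x n from rfl, h, ← zpow_mul]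

lemma P_pow {n m : ℤ} (h : P a x n m) (r : ℕ) : P a x (r * n) (m ^ r) := by
  induction r with
  | zero => simp [P, X]
  | succ r ih =>
    have := P_mul ih h
    have e : ((r + 1 : ℕ) : ℤ) * n = r * n + n := by push_cast; ring
    rw [e, pow_succ]
    exact this

lemma P_inj (hord : ∀ n : ℤ, x ^ n = 1 → n = 0) {n m m' : ℤ} (h : P a x n m) (h' : P a x n m') :
    m = m' := by
  unfold P at *
  rw [h] at h'
  have : x ^ (m - m') = 1 := by rw [zpow_sub, h', mul_inv_cancel]
  have := hord _ this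
  omega

/-- Key claim: `x` lies in every subgroup containing `X n` for all `n > 0`. -/
lemma mem_of_pos (h : Ctx a x) {N : Subgroup G} (hN : N.Normal) (hx : x ∈ N)
    (hA : ∀ n : ℤ, a ^ n ∈ N → n = 0) (U : Subgroup G) (hU : ∀ n : ℤ, 0 < n → X a x n ∈ U) :
    x ∈ U := by
  -- a relation `X i = x ^ k * X j` can be shifted
  have shift : ∀ (k : ℤ) (i j : ℤ), X a x i = x ^ k * X a x j → ∀ n : ℤ,
      X a x (n + i) = X a x n ^ k * X a x (n + j) := by
    intro k i j e n
    rw [← X_conj, e, conj_mul', conj_pow', X_conj, show a ^ n * x * a ^ (-n) = X a x n from rfl]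
  have tri : ∀ (k : ℤ) (i j : ℤ), X a x i = x ^ k * X a x j → i ≠ j → i ≠ 0 → j ≠ 0 →
      (0 < i ∧ 0 < j → x ^ k ∈ U) ∧ (¬ (0 < i ∧ 0 < j) → x ∈ U) := by
    intro k i j e hij hi hj
    refine ⟨?_, ?_⟩
    · rintro ⟨h1, h2⟩
      have h3 : x ^ k = X a x i * (X a x j)⁻¹ := by rw [e, mul_inv_cancel_right]
      rw [h3]
      exact U.mul_mem (hU i h1) (U.inv_mem (hU j h2))
    · intro h1
      by_cases h2 : i < j
      · -- `i` is the minimum and negative
        have h3 : i < 0 := by
          by_contra h4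
          exact h1 ⟨by omega, by omega⟩
        have h4 := shift k i j e (-i)
        rw [neg_add_cancel, X_zero] at h4
        rw [h4]
        exact U.mul_mem (U.zpow_mem (hU _ (by omega)) k) (hU _ (by omega))
      · have h3 : j < 0 := by
          by_contra h4
          exact h1 ⟨by omega, by omega⟩
        have h4 := shift k i j e (-j)
        rw [neg_add_cancel, X_zero] at h4
        have h5 : x = (X a x (-j) ^ k)⁻¹ * X a x (-j + i) := by
          rw [h4, inv_mul_cancel_left]
        rw [h5]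
        exact U.mul_mem (U.inv_mem (U.zpow_mem (hU _ (by omega)) k)) (hU _ (by omega))
  obtain ⟨i, j, hij⟩ := mem_form h.cov hN hx hA hx
  have e1 : X a x i = x ^ (1 : ℤ) * X a x j := by
    rw [zpow_one]
    nth_rewrite 2 [hij]
    rw [inv_mul_cancel_right]
  have hij0 : i ≠ j := by
    rintro rfl
    rw [mul_inv_cancel] at hij
    exact x_ne h hij
  have hi0 : i ≠ 0 := by
    rintro rfl
    rw [X_zero, zpow_one] at e1
    have : X a x j = 1 := by
      have h2 : x * X a x j = x * 1 := by rw [← e1, mul_one]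
      exact mul_left_cancel h2
    exact X_ne h j this
  by_cases hj0 : j = 0
  · -- the degenerate case
    subst hj0
    have e2 : P a x i 2 := by
      unfold P
      rw [e1, X_zero, zpow_one, zpow_two]
    have hord := deg_order h hi0 e2
    have hx5 : x ^ (5 : ℤ) ∈ N := N.zpow_mem hx 5
    obtain ⟨r, s, hrs⟩ := mem_form h.cov hN hx hA hx5
    have e3 : X a x r = x ^ (5 : ℤ) * X a x s := by rw [hrs, inv_mul_cancel_right]
    have hne1 : r ≠ s := by
      rintro rfl
      rw [mul_inv_cancel] at hrs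
      have := hord 5 hrs
      omega
    have hr : r ≠ 0 := by
      rintro rfl
      have e4 : P a x s (-4) := by
        unfold P
        rw [X_zero] at e3
        have : X a x s = (x ^ (5 : ℤ))⁻¹ * x ^ (1 : ℤ) := by
          rw [zpow_one, eq_inv_mul_iff_mul_eq, ← e3]
        rw [this, ← zpow_neg, ← zpow_add]
        norm_num
      have e5 : P a x (s + s) (-4 * -4) := P_mul e4 e4
      have e6 := P_pow e2 4
      have e7 : X a x (s + s) = X a x ((4 : ℕ) * i) := by
        rw [e5, e6]
        norm_num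
      have e8 := X_inj h e7
      have e9 : s = (2 : ℕ) * i := by push_cast at e8 ⊢; omega
      have e10 := P_pow e2 2
      rw [← e9] at e10
      have := P_inj hord e4 e10
      norm_num at this
    have hs : s ≠ 0 := by
      rintro rfl
      have e4 : P a x r 6 := by
        unfold P
        rw [e3, X_zero]
        nth_rewrite 2 [← zpow_one x]
        rw [← zpow_add]
        norm_num
      have e5 := P_pow e2 r.natAbs
      have e6 := P_pow e4 i.natAbs
      have hi1 : i.natAbs ≠ 0 := by omega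
      rcases lt_or_gt_of_ne hi0 with hi | hi <;> rcases lt_or_gt_of_ne hr with hr' | hr'
      · have h1 : ((r.natAbs : ℕ) : ℤ) * i = (i.natAbs : ℕ) * r := by
          rw [show ((r.natAbs : ℕ) : ℤ) = -r by omega, show ((i.natAbs : ℕ) : ℤ) = -i by omega]
          ring
        rw [h1] at e5
        have h2 := P_inj hord e6 e5
        have h3 : (3 : ℤ) ∣ 2 ^ r.natAbs := by
          rw [← h2]
          exact dvd_pow (by norm_num) hi1
        have h4 := Int.Prime.dvd_pow' (by norm_num) h3
        norm_num at h4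
      · have h1 : ((r.natAbs : ℕ) : ℤ) * i + (i.natAbs : ℕ) * r = 0 := by
          rw [show ((r.natAbs : ℕ) : ℤ) = r by omega, show ((i.natAbs : ℕ) : ℤ) = -i by omega]
          ring
        have h2 := P_mul e5 e6
        rw [h1] at h2
        have h3 : P a x 0 1 := by simp [P, X]
        have h4 := P_inj hord h2 h3
        have h5 : (3 : ℤ) ∣ 1 := by
          rw [← h4]
          exact Dvd.dvd.mul_left (dvd_pow (by norm_num) hi1) _
        norm_num at h5
      · have h1 : ((r.natAbs : ℕ) : ℤ) * i + (i.natAbs : ℕ) * r = 0 := by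
          rw [show ((r.natAbs : ℕ) : ℤ) = -r by omega, show ((i.natAbs : ℕ) : ℤ) = i by omega]
          ring
        have h2 := P_mul e5 e6
        rw [h1] at h2
        have h3 : P a x 0 1 := by simp [P, X]
        have h4 := P_inj hord h2 h3
        have h5 : (3 : ℤ) ∣ 1 := by
          rw [← h4]
          exact Dvd.dvd.mul_left (dvd_pow (by norm_num) hi1) _
        norm_num at h5
      · have h1 : ((r.natAbs : ℕ) : ℤ) * i = (i.natAbs : ℕ) * r := by
          rw [show ((r.natAbs : ℕ) : ℤ) = r by omega, show ((i.natAbs : ℕ) : ℤ) = i by omega]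
          ring
        rw [h1] at e5
        have h2 := P_inj hord e6 e5
        have h3 : (3 : ℤ) ∣ 2 ^ r.natAbs := by
          rw [← h2]
          exact dvd_pow (by norm_num) hi1
        have h4 := Int.Prime.dvd_pow' (by norm_num) h3
        norm_num at h4
    obtain ⟨t1, t2⟩ := tri 5 r s e3 hne1 hr hs
    by_cases hpos : 0 < r ∧ 0 < s
    · have h5 := t1 hpos
      rcases lt_or_gt_of_ne hi0 with hi | hi
      · have h6 := shift 1 i 0 e1 (-i)
        rw [neg_add_cancel, X_zero, add_zero, zpow_one] at h6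
        rw [h6]
        exact U.mul_mem (hU _ (by omega)) (hU _ (by omega))
      · have h6 : x ^ (2 : ℤ) ∈ U := by
          rw [← show X a x i = x ^ (2 : ℤ) from e2]
          exact hU i hi
        have h7 : x = x ^ (5 : ℤ) * (x ^ (2 : ℤ)) ^ (-2 : ℤ) := by
          rw [← zpow_mul, ← zpow_add]
          norm_num
        rw [h7]
        exact U.mul_mem h5 (U.zpow_mem h6 _)
    · exact t2 hpos
  · obtain ⟨t1, t2⟩ := tri 1 i j e1 hij0 hi0 hj0
    by_cases hpos : 0 < i ∧ 0 < j
    · have := t1 hpos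
      rwa [zpow_one] at this
    · exact t2 hpos

/-- window subgroups -/
def W (a x : G) (m n : ℤ) : Subgroup G := Subgroup.closure {g | ∃ k : ℤ, m ≤ k ∧ k ≤ n ∧ g = X a x k}

lemma X_mem_W {m n k : ℤ} (h1 : m ≤ k) (h2 : k ≤ n) : X a x k ∈ W a x m n :=
  Subgroup.subset_closure ⟨k, h1, h2, rfl⟩

lemma W_mono {m n m' n' : ℤ} (h1 : m' ≤ m) (h2 : n ≤ n') : W a x m n ≤ W a x m' n' := by
  apply Subgroup.closure_mono
  rintro g ⟨k, hk1, hk2, rfl⟩
  exact ⟨k, by omega, by omega, rfl⟩

lemma W_conj (m n s : ℤ) {g : G} (hg : g ∈ W a x m n) :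
    a ^ s * g * a ^ (-s) ∈ W a x (s + m) (s + n) := by
  have hle : W a x m n ≤ (W a x (s + m) (s + n)).comap (MulAut.conj (a ^ s)).toMonoidHom := by
    unfold W
    rw [Subgroup.closure_le]
    rintro g ⟨k, hk1, hk2, rfl⟩
    show a ^ s * X a x k * (a ^ s)⁻¹ ∈ W a x (s + m) (s + n)
    rw [← zpow_neg, X_conj]
    exact X_mem_W (by omega) (by omega)
  have := hle hg
  rw [zpow_neg]
  exact this

/-- A finite window generates `N`. -/
lemma window (h : Ctx a x) {N : Subgroup G} (hN : N.Normal) (hx : x ∈ N)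
    (hA : ∀ n : ℤ, a ^ n ∈ N → n = 0) : ∃ M : ℕ, ∀ s : ℤ, N = W a x s (s + M) := by
  -- positive side
  have hpos : ∃ M : ℕ, x ∈ W a x 1 M := by
    have h1 : x ∈ ⨆ M : ℕ, W a x 1 M := by
      refine mem_of_pos h hN hx hA _ ?_
      intro n hn
      have h2 : W a x 1 n.toNat ≤ ⨆ M : ℕ, W a x 1 M := le_iSup (fun M : ℕ => W a x 1 M) n.toNat
      exact h2 (X_mem_W (by omega) (by omega))
    rw [Subgroup.mem_iSup_of_directed] at h1
    · exact h1
    · exact (monotone_nat_of_le_succ fun n => W_mono le_rfl (by omega)).directed_le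
  have hneg : ∃ M : ℕ, x ∈ W a x (-M) (-1) := by
    have h1 : x ∈ ⨆ M : ℕ, W a x (-M) (-1) := by
      refine mem_of_pos (ctx_inv h) hN hx ?_ _ ?_
      · intro n hn
        rw [inv_zpow'] at hn
        have := hA _ hn
        omega
      · intro n hn
        rw [X_neg]
        have h2 : W a x (-(n.toNat : ℤ)) (-1) ≤ ⨆ M : ℕ, W a x (-M) (-1) :=
          le_iSup (fun M : ℕ => W a x (-M) (-1)) n.toNat
        exact h2 (X_mem_W (by omega) (by omega))
    rw [Subgroup.mem_iSup_of_directed] at h1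
    · exact h1
    · exact (monotone_nat_of_le_succ fun n => W_mono (by omega) le_rfl).directed_le
  obtain ⟨M1, hM1⟩ := hpos
  obtain ⟨M2, hM2⟩ := hneg
  refine ⟨M1 + M2, fun s => ?_⟩
  have hp : x ∈ W a x 1 (M1 + M2 : ℕ) := W_mono le_rfl (by omega) hM1
  have hn : x ∈ W a x (-(M1 + M2 : ℕ)) (-1) := W_mono (by omega) le_rfl hM2
  set M := M1 + M2 with hM
  have hXN : ∀ n, X a x n ∈ N := by
    intro n
    unfold X
    rw [zpow_neg]
    exact hN.conj_mem x hx _
  apply le_antisymm
  · -- every X n is in the window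
    have hup : ∀ k : ℕ, X a x (s + M + k) ∈ W a x s (s + M) ∧
        W a x s (s + M + k) ≤ W a x s (s + M) := by
      intro k
      induction k with
      | zero => exact ⟨X_mem_W (by omega) (by omega), W_mono le_rfl (by omega)⟩
      | succ k ih =>
        have h1 : X a x (s + M + (k + 1 : ℕ)) ∈ W a x s (s + M) := by
          have h2 := W_conj _ _ (s + M + (k + 1 : ℕ)) hn
          have h3 : a ^ (s + M + (k + 1 : ℕ)) * x * a ^ (-(s + M + (k + 1 : ℕ))) =
              X a x (s + M + (k + 1 : ℕ)) := rfl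
          rw [h3] at h2
          exact ih.2 (W_mono (by push_cast; omega) (by push_cast; omega) h2)
        refine ⟨h1, ?_⟩
        unfold W
        rw [Subgroup.closure_le]
        rintro g ⟨j, hj1, hj2, rfl⟩
        by_cases hj : j ≤ s + M + k
        · exact ih.2 (X_mem_W hj1 hj)
        · have : j = s + M + (k + 1 : ℕ) := by push_cast at hj2 ⊢; omega
          rw [this]
          exact h1
    have hdn : ∀ k : ℕ, X a x (s - k) ∈ W a x s (s + M) ∧
        W a x (s - k) (s + M) ≤ W a x s (s + M) := by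
      intro k
      induction k with
      | zero => exact ⟨X_mem_W (by omega) (by omega), W_mono (by omega) (by omega)⟩
      | succ k ih =>
        have h1 : X a x (s - (k + 1 : ℕ)) ∈ W a x s (s + M) := by
          have h2 := W_conj _ _ (s - (k + 1 : ℕ)) hp
          have h3 : a ^ (s - (k + 1 : ℕ)) * x * a ^ (-(s - (k + 1 : ℕ))) =
              X a x (s - (k + 1 : ℕ)) := rfl
          rw [h3] at h2
          exact ih.2 (W_mono (by push_cast; omega) (by push_cast; omega) h2)
        refine ⟨h1, ?_⟩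
        unfold W
        rw [Subgroup.closure_le]
        rintro g ⟨j, hj1, hj2, rfl⟩
        by_cases hj : s - k ≤ j
        · exact ih.2 (X_mem_W hj hj2)
        · have : j = s - (k + 1 : ℕ) := by push_cast at hj1 ⊢; omega
          rw [this]
          exact h1
    have hall : ∀ n : ℤ, X a x n ∈ W a x s (s + M) := by
      intro n
      by_cases h1 : n < s
      · have := (hdn (s - n).toNat).1
        rwa [show s - ((s - n).toNat : ℤ) = n by omega] at this
      · by_cases h2 : n ≤ s + M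
        · exact X_mem_W (by omega) h2
        · have := (hup (n - s - M).toNat).1
          rwa [show s + M + ((n - s - M).toNat : ℤ) = n by omega] at this
    intro g hg
    obtain ⟨i, j, rfl⟩ := mem_form h.cov hN hx hA hg
    exact Subgroup.mul_mem _ (hall i) (Subgroup.inv_mem _ (hall j))
  · unfold W
    rw [Subgroup.closure_le]
    rintro g ⟨k, _, _, rfl⟩
    exact hXN k

lemma fg (h : Ctx a x) {N : Subgroup G} (hN : N.Normal) (hx : x ∈ N)
    (hA : ∀ n : ℤ, a ^ n ∈ N → n = 0) : N.FG := by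
  obtain ⟨M, hM⟩ := window h hN hx hA
  rw [hM 0, Subgroup.fg_iff]
  refine ⟨{g | ∃ k : ℤ, 0 ≤ k ∧ k ≤ 0 + M ∧ g = X a x k}, rfl, ?_⟩
  have : {g | ∃ k : ℤ, 0 ≤ k ∧ k ≤ 0 + (M : ℤ) ∧ g = X a x k} ⊆
      (fun k : ℤ => X a x k) '' (Set.Icc 0 (M : ℤ)) := by
    rintro g ⟨k, h1, h2, rfl⟩
    exact ⟨k, ⟨h1, by omega⟩, rfl⟩
  exact (Set.Finite.image _ (Set.finite_Icc _ _)).subset this

end basic

end Pool.Agent.Work.MP_302c96_al.Str
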