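import Mathlib

/-! A finitely generated group has finitely many subgroups of a given finite index. -/

set_option autoImplicit false

namespace Pool.Agent.Work.MP_302c96_al.Str

universe u

lemma finite_hom {L : Type*} [Group L] (hL : Group.FG L) (F : Type*) [Group F] [Finite F] :
    Finite (L →* F) := by
  obtain ⟨S, hS, hSfin⟩ := Group.fg_iff.1 hL
  have : Finite S := hSfin
  refine Finite.of_injective (fun φ : L →* F => fun s : S => φ s.1) ?_
  intro φ ψ h
  refine MonoidHom.eq_of_eqOn_dense hS ?_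
  intro s hs
  exact congrFun h ⟨s, hs⟩

lemma finite_index {L : Type*} [Group L] (hL : Group.FG L) (n : ℕ) (hn : n ≠ 0) :
    {H : Subgroup L | H.index = n}.Finite := by
  obtain ⟨m, rfl⟩ : ∃ m, n = m + 1 := ⟨n - 1, by omega⟩
  have := finite_hom hL (Equiv.Perm (Fin (m + 1)))
  refine (Set.finite_range (fun φ : L →* Equiv.Perm (Fin (m + 1)) =>
    ((MulAction.stabilizer (Equiv.Perm (Fin (m + 1))) (0 : Fin (m + 1))).comap φ))).subset ?_
  intro H hH
  have hH' : H.index = m + 1 := hH
  have hfi : H.FiniteIndex := ⟨by omega⟩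
  have hcard : Nat.card (L ⧸ H) = m + 1 := hH'
  let e0 : (L ⧸ H) ≃ Fin (m + 1) := Finite.equivFinOfCardEq hcard
  let e : (L ⧸ H) ≃ Fin (m + 1) := e0.trans (Equiv.swap (e0 ((1 : L) : L ⧸ H)) 0)
  have he : e ((1 : L) : L ⧸ H) = 0 := by simp [e]
  refine ⟨(Equiv.permCongrHom e : Equiv.Perm (L ⧸ H) ≃* _).toMonoidHom.comp
    (MulAction.toPermHom L (L ⧸ H)), ?_⟩
  ext g
  rw [Subgroup.mem_comap, MulAction.mem_stabilizer_iff]
  have h1 : ((Equiv.permCongrHom e : Equiv.Perm (L ⧸ H) ≃* _).toMonoidHom.comp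
      (MulAction.toPermHom L (L ⧸ H)) g) • (0 : Fin (m + 1)) = e (g • e.symm 0) := rfl
  rw [h1]
  have h2 : e.symm 0 = ((1 : L) : L ⧸ H) := by rw [← he, Equiv.symm_apply_apply]
  rw [h2]
  have h4 : e (g • ((1 : L) : L ⧸ H)) = 0 ↔ g • ((1 : L) : L ⧸ H) = ((1 : L) : L ⧸ H) := by
    rw [← e.apply_eq_iff_eq, he]
  rw [h4]
  have h3 : g • ((1 : L) : L ⧸ H) = (g : L ⧸ H) := by
    rw [MulAction.Quotient.smul_coe, smul_eq_mul, mul_one]
  rw [h3, eq_comm, QuotientGroup.eq, inv_one, one_mul]

/-- If `L` is a finitely generated normal subgroup of `G`, every subgroup of finite index in `L`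
contains a normal subgroup of `G` of finite index in `L`. -/
lemma core_rel {G : Type u} [Group G] (L : Subgroup G) [hn : L.Normal] (hL : L.FG)
    (K : Subgroup G) (hr : K.relIndex L ≠ 0) : K.normalCore.relIndex L ≠ 0 := by
  have hfg : Group.FG L := (Group.fg_iff_subgroup_fg L).2 hL
  have hfin := finite_index hfg (K.relIndex L) hr
  -- the conjugates of `K` inside `L`
  let c : G → Subgroup L := fun g => (K.subgroupOf L).comap (MulAut.conjNormal g⁻¹).toMonoidHom
  have hc : ∀ g, c g ∈ {H : Subgroup L | H.index = K.relIndex L} := by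
    intro g
    show ((K.subgroupOf L).comap (MulAut.conjNormal g⁻¹).toMonoidHom).index = K.relIndex L
    exact Subgroup.index_comap_of_surjective (K.subgroupOf L)
      (f := (MulAut.conjNormal g⁻¹ : MulAut L).toMonoidHom) (MulAut.conjNormal g⁻¹ : MulAut L).surjective
  have hrange : (Set.range c).Finite := hfin.subset (by rintro _ ⟨g, rfl⟩; exact hc g)
  have : Finite (Set.range c) := hrange
  have hI : (⨅ H : Set.range c, (H : Subgroup L)).FiniteIndex := by
    apply Subgroup.finiteIndex_iInf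
    rintro ⟨_, g, rfl⟩
    refine ⟨?_⟩
    rw [show (c g).index = K.relIndex L from hc g]
    exact hr
  have hle : (⨅ H : Set.range c, (H : Subgroup L)) ≤ K.normalCore.subgroupOf L := by
    intro l hl
    rw [Subgroup.mem_subgroupOf]
    intro g
    rw [Subgroup.mem_iInf] at hl
    have h1 := hl ⟨c g⁻¹, g⁻¹, rfl⟩
    have h2 : (MulAut.conjNormal g⁻¹⁻¹ l : L) ∈ K.subgroupOf L := h1
    rw [Subgroup.mem_subgroupOf, MulAut.conjNormal_apply, inv_inv] at h2
    exact h2
  have := Subgroup.finiteIndex_of_le hle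
  exact this.index_ne_zero

end Pool.Agent.Work.MP_302c96_al.Str
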