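import Pool.Agent.Work.MP_302c96_al.Str.Dec

/-! The finite residual of a counterexample is simple: the combinatorics of the factors. -/

set_option autoImplicit false

namespace Pool.Agent.Work.MP_302c96_al.Str

open Pool.Agent.Work.MP_302c96_al.Mal

universe u v

variable {G : Type u} [Group G]

/-- The complements `P m` of the factors of a direct decomposition of `D`. -/
structure Fam (D : Subgroup G) (n : ℕ) (P : Fin n → Subgroup G) : Prop where
  le : ∀ m, P m ≤ D
  norm : ∀ m, ∀ d ∈ D, ∀ p ∈ P m, d * p * d⁻¹ ∈ P m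
  triv : ∀ d, (∀ m, d ∈ P m) → d = 1
  comp : ∀ m, ∀ d ∈ D, ∃ s ∈ D, (∀ m', m' ≠ m → s ∈ P m') ∧ s⁻¹ * d ∈ P m
  full : ∃ d ∈ D, ∀ m, d ∉ P m
  perm : ∀ g : G, ∀ m, ∃ m', ∀ d, d ∈ P m ↔ g * d * g⁻¹ ∈ P m'

/-- The complement of the `m`-th factor. -/
def Pf {D : Subgroup G} {S : Type v} [Group S] {n : ℕ} (e : D ≃* (Fin n → S)) (m : Fin n) :
    Subgroup G :=
  (((Pi.evalMonoidHom (fun _ : Fin n => S) m).comp e.toMonoidHom).ker).map D.subtype

lemma mem_Pf {D : Subgroup G} {S : Type v} [Group S] {n : ℕ} (e : D ≃* (Fin n → S)) (m : Fin n)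
    (d : D) : (d : G) ∈ Pf e m ↔ e d m = 1 := by
  unfold Pf
  rw [show (d : G) = D.subtype d from rfl, Subgroup.mem_map_iff_mem D.subtype_injective,
    MonoidHom.mem_ker]
  rfl

lemma Pf_le {D : Subgroup G} {S : Type v} [Group S] {n : ℕ} (e : D ≃* (Fin n → S)) (m : Fin n) :
    Pf e m ≤ D := Subgroup.map_subtype_le _

lemma fam_Pf {D : Subgroup G} [hD : D.Normal] {S : Type v} [Group S] (hS : IsSimpleGroup S)
    (hna : ∃ s t : S, s * t ≠ t * s) {n : ℕ} (hn : 0 < n) (e : D ≃* (Fin n → S)) :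
    Fam D n (Pf e) := by
  classical
  have hsurj : ∀ m, Function.Surjective ((Pi.evalMonoidHom (fun _ : Fin n => S) m).comp e.toMonoidHom) := by
    intro m s
    refine ⟨e.symm (Pi.mulSingle m s), ?_⟩
    show e (e.symm (Pi.mulSingle m s)) m = s
    rw [MulEquiv.apply_symm_apply, Pi.mulSingle_eq_same]
  obtain ⟨s0, t0, hst⟩ := hna
  have hs0 : s0 ≠ 1 := by
    rintro rfl
    exact hst (by rw [one_mul, mul_one])
  refine ⟨Pf_le e, ?_, ?_, ?_, ?_, ?_⟩
  · intro m d hd p hp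
    have hpD := Pf_le e m hp
    have h1 : e ⟨p, hpD⟩ m = 1 := (mem_Pf e m ⟨p, hpD⟩).1 hp
    have h2 : ((⟨d, hd⟩ * ⟨p, hpD⟩ * ⟨d, hd⟩⁻¹ : D) : G) ∈ Pf e m := by
      rw [mem_Pf, map_mul, map_mul, Pi.mul_apply, Pi.mul_apply, h1, map_inv, Pi.inv_apply, mul_one,
        mul_inv_cancel]
    exact h2
  · intro d hd
    have hdD : d ∈ D := Pf_le e ⟨0, hn⟩ (hd _)
    have h1 : e ⟨d, hdD⟩ = 1 := by
      funext m
      exact (mem_Pf e m ⟨d, hdD⟩).1 (hd m)
    have h2 : (⟨d, hdD⟩ : D) = 1 := by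
      apply e.injective
      rw [h1, map_one]
    exact congrArg Subtype.val h2
  · intro m d hd
    refine ⟨(e.symm (Pi.mulSingle m (e ⟨d, hd⟩ m)) : D), Subtype.prop _, ?_, ?_⟩
    · intro m' hm'
      rw [mem_Pf, MulEquiv.apply_symm_apply, Pi.mulSingle_eq_of_ne hm']
    · have h2 : (((e.symm (Pi.mulSingle m (e ⟨d, hd⟩ m)))⁻¹ * ⟨d, hd⟩ : D) : G) ∈ Pf e m := by
        rw [mem_Pf, map_mul, map_inv, MulEquiv.apply_symm_apply, Pi.mul_apply, Pi.inv_apply,
          Pi.mulSingle_eq_same, inv_mul_cancel]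
      exact h2
  · refine ⟨(e.symm (fun _ => s0) : D), Subtype.prop _, fun m hm => ?_⟩
    rw [mem_Pf, MulEquiv.apply_symm_apply] at hm
    exact hs0 hm
  · intro g m
    obtain ⟨ev, hev⟩ : ∃ ev : Fin n → (D →* S), ev = fun m => (Pi.evalMonoidHom (fun _ : Fin n => S) m).comp e.toMonoidHom := ⟨_, rfl⟩
    have hevs : ∀ m, Function.Surjective (ev m) := by rw [hev]; exact hsurj
    have hevm : ∀ m (d : D), d ∈ (ev m).ker ↔ (d : G) ∈ Pf e m := by
      intro m d
      rw [mem_Pf, MonoidHom.mem_ker, hev]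
      rfl
    let ψ : D →* S := (ev m).comp (MulAut.conjNormal g⁻¹ : MulAut D).toMonoidHom
    have hψs : Function.Surjective ψ :=
      (hevs m).comp (MulAut.conjNormal g⁻¹ : MulAut D).surjective
    have hψk : ∀ d : D, d ∈ ψ.ker ↔ g⁻¹ * (d : G) * g ∈ Pf e m := by
      intro d
      have h1 : (((MulAut.conjNormal g⁻¹ : MulAut D) d : D) : G) = g⁻¹ * (d : G) * g := by
        rw [MulAut.conjNormal_apply, inv_inv]
      rw [← h1, ← hevm]
      rfl
    obtain ⟨K, hK, hKle⟩ := prime_finset hS ⟨s0, t0, hst⟩ ψ hψs (Finset.univ.image fun m => (ev m).ker)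
      (by
        intro K hK
        rw [Finset.mem_image] at hK
        obtain ⟨m', _, rfl⟩ := hK
        infer_instance) (by
        intro d hd
        have h1 : d = 1 := by
          apply e.injective
          rw [map_one]
          funext m'
          have h2 : (Finset.univ.image fun m => (ev m).ker).inf id ≤ (ev m').ker :=
            Finset.inf_le (f := id) (Finset.mem_image_of_mem _ (Finset.mem_univ m'))
          exact (mem_Pf e m' d).1 ((hevm m' d).1 (h2 hd))
        rw [h1]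
        exact Subgroup.one_mem _)
    rw [Finset.mem_image] at hK
    obtain ⟨m', _, rfl⟩ := hK
    have hle : ψ.ker ≤ (ev m').ker := by
      by_contra hcon
      have h3 := map_top_of hS (ev m') (hevs m') ψ.ker inferInstance hcon
      apply hst
      obtain ⟨u, rfl⟩ := hψs s0
      obtain ⟨w, rfl⟩ := hψs t0
      have h1 : ∀ u : D, ψ u = 1 := by
        intro u
        obtain ⟨u', hu', h5⟩ : ev m' u ∈ ψ.ker.map (ev m') := by rw [h3]; exact Subgroup.mem_top _
        have h6 : u'⁻¹ * u ∈ (ev m').ker := by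
          rw [MonoidHom.mem_ker, map_mul, map_inv, h5, inv_mul_cancel]
        have h7 := ψ.ker.mul_mem hu' (hKle h6)
        rwa [mul_inv_cancel_left] at h7
      rw [h1 u, h1 w]
    have hiff : ∀ d : D, g⁻¹ * (d : G) * g ∈ Pf e m ↔ (d : G) ∈ Pf e m' := by
      intro d
      rw [← hψk, ← hevm]
      exact ⟨fun h => hle h, fun h => hKle h⟩
    refine ⟨m', fun d => ?_⟩
    have e1 : g⁻¹ * (g * d * g⁻¹) * g = d := by group
    constructor
    · intro hd
      have hdD : g * d * g⁻¹ ∈ D := hD.conj_mem d (Pf_le e m hd) g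
      have h1 := hiff ⟨_, hdD⟩
      rw [← h1]
      show g⁻¹ * (g * d * g⁻¹) * g ∈ Pf e m
      rwa [e1]
    · intro hd
      have hdD : g * d * g⁻¹ ∈ D := Pf_le e m' hd
      have h1 := (hiff ⟨_, hdD⟩).2 hd
      have h2 : g⁻¹ * (g * d * g⁻¹) * g ∈ Pf e m := h1
      rwa [e1] at h2

end Pool.Agent.Work.MP_302c96_al.Str
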