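import Pool.Agent.Work.MP_302c96_al.Str.One

/-! The finite residual of a counterexample is simple: periodic coordinates. -/

set_option autoImplicit false

namespace Pool.Agent.Work.MP_302c96_al.Str

open Pool.Agent.Work.MP_302c96_al.Mal

universe u v

variable {G : Type u} [Group G]

/-- The set up: `N` is the set of all `X i * (X j)⁻¹`, the `P m` are permuted by `a` as `σ` says. -/
structure Ac (a x : G) (D N : Subgroup G) (n : ℕ) (P : Fin n → Subgroup G)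
    (σ : Equiv.Perm (Fin n)) (K : ℕ) : Prop where
  fam : Fam D n P
  npos : 0 < n
  dn : D ≤ N
  hX : ∀ i, X a x i ∈ N
  form : ∀ g ∈ N, ∃ i j : ℤ, g = X a x i * (X a x j)⁻¹
  cent : ∀ (u : ℤ) (g : G), u ≠ 0 → g ∈ N → a ^ u * g * a ^ (-u) = g → g = 1
  xne : x ≠ 1
  sig : ∀ m d, d ∈ P m ↔ a * d * a⁻¹ ∈ P (σ m)
  kpos : 0 < K
  kfix : σ ^ K = 1

variable {a x : G} {D N : Subgroup G} {n : ℕ} {P : Fin n → Subgroup G} {σ : Equiv.Perm (Fin n)}
  {K : ℕ}

lemma pm_ai {ι : Type*} (τ : Equiv.Perm ι) (m : ι) : τ (τ⁻¹ m) = m := τ.apply_symm_apply m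

lemma pm_ia {ι : Type*} (τ : Equiv.Perm ι) (m : ι) : τ⁻¹ (τ m) = m := τ.symm_apply_apply m

lemma cj_mul (u : ℤ) (y z : G) :
    a ^ u * (y * z) * a ^ (-u) = (a ^ u * y * a ^ (-u)) * (a ^ u * z * a ^ (-u)) := conj_mul' u y z

lemma cj_inv (u : ℤ) (y : G) : a ^ u * y⁻¹ * a ^ (-u) = (a ^ u * y * a ^ (-u))⁻¹ := by
  rw [zpow_neg]
  group

lemma cj_add (u v : ℤ) (y : G) :
    a ^ (u + v) * y * a ^ (-(u + v)) = a ^ u * (a ^ v * y * a ^ (-v)) * a ^ (-u) := by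
  rw [neg_add, add_comm (-u) (-v), zpow_add, zpow_add]
  simp only [mul_assoc]

lemma cj_zero (y : G) : a ^ (0 : ℤ) * y * a ^ (-(0 : ℤ)) = y := by simp

lemma cj_neg (u : ℤ) (y : G) : a ^ (-u) * (a ^ u * y * a ^ (-u)) * a ^ (-(-u)) = y := by
  rw [← cj_add, neg_add_cancel, cj_zero]

namespace Ac

variable (H : Ac a x D N n P σ K)

include H

lemma sigz (u : ℤ) : ∀ (m : Fin n) (d : G), d ∈ P m ↔ a ^ u * d * a ^ (-u) ∈ P ((σ ^ u) m) := by
  induction u using Int.induction_on with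
  | zero => intro m d; rw [cj_zero, zpow_zero]; rfl
  | succ i ih =>
    intro m d
    rw [ih, H.sig]
    have e1 : a * (a ^ (i : ℤ) * d * a ^ (-(i : ℤ))) * a⁻¹ =
        a ^ ((i : ℤ) + 1) * d * a ^ (-((i : ℤ) + 1)) := by
      rw [add_comm (i : ℤ) 1, cj_add, zpow_one, zpow_neg_one]
    have e2 : σ ((σ ^ (i : ℤ)) m) = (σ ^ ((i : ℤ) + 1)) m := by
      rw [add_comm, zpow_add, zpow_one]
      rfl
    rw [e1, e2]
  | pred i ih =>
    intro m d
    rw [ih, H.sig ((σ ^ (-(i : ℤ) - 1)) m)]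
    have e1 : a * (a ^ (-(i : ℤ) - 1) * d * a ^ (-(-(i : ℤ) - 1))) * a⁻¹ =
        a ^ (-(i : ℤ)) * d * a ^ (-(-(i : ℤ))) := by
      have : a * (a ^ (-(i : ℤ) - 1) * d * a ^ (-(-(i : ℤ) - 1))) * a⁻¹ =
        a ^ (1 : ℤ) * (a ^ (-(i : ℤ) - 1) * d * a ^ (-(-(i : ℤ) - 1))) * a ^ (-(1 : ℤ)) := by
        rw [zpow_one, zpow_neg_one]
      rw [this, ← cj_add, show (1 : ℤ) + (-(i : ℤ) - 1) = -(i : ℤ) by ring]
    have e2 : σ ((σ ^ (-(i : ℤ) - 1)) m) = (σ ^ (-(i : ℤ))) m := by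
      have : (σ ^ (-(i : ℤ))) m = (σ ^ ((1 : ℤ) + (-(i : ℤ) - 1))) m := by
        rw [show (1 : ℤ) + (-(i : ℤ) - 1) = -(i : ℤ) by ring]
      rw [this, zpow_add, zpow_one]
      rfl
    rw [e1, e2]

lemma sigK {u : ℤ} (hu : (K : ℤ) ∣ u) (m : Fin n) : (σ ^ u) m = m := by
  obtain ⟨w, rfl⟩ := hu
  rw [zpow_mul, zpow_natCast, H.kfix, one_zpow]
  rfl

lemma pres {u : ℤ} (hu : (K : ℤ) ∣ u) (m : Fin n) (d : G) :
    d ∈ P m ↔ a ^ u * d * a ^ (-u) ∈ P m := by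
  rw [H.sigz u m d, H.sigK hu]

/-- the periods of `X i` modulo `P m` -/
def perG (i : ℤ) (m : Fin n) : AddSubgroup ℤ where
  carrier := {u | (K : ℤ) ∣ u ∧ X a x (i + u) * (X a x i)⁻¹ ∈ P m}
  zero_mem' := by
    refine ⟨dvd_zero _, ?_⟩
    rw [add_zero, mul_inv_cancel]
    exact (P m).one_mem
  add_mem' := by
    rintro u w ⟨hu, hu2⟩ ⟨hw, hw2⟩
    refine ⟨dvd_add hu hw, ?_⟩
    have h1 := (H.pres hw m _).1 hu2
    rw [cj_mul, cj_inv, X_conj, X_conj] at h1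
    have h2 := (P m).mul_mem h1 (by rwa [show w + i = i + w by ring] : X a x (w + i) * (X a x i)⁻¹ ∈ P m)
    rwa [mul_assoc, inv_mul_cancel_left, show w + (i + u) = i + (u + w) by ring] at h2
  neg_mem' := by
    rintro u ⟨hu, hu2⟩
    refine ⟨(dvd_neg).2 hu, ?_⟩
    have h1 := (H.pres ((dvd_neg).2 hu) m _).1 hu2
    rw [cj_mul, cj_inv, X_conj, X_conj] at h1
    have h2 := (P m).inv_mem h1
    rwa [mul_inv_rev, inv_inv, show -u + (i + u) = i by ring, show -u + i = i + -u by ring] at h2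

omit H in
lemma mem_perG {H : Ac a x D N n P σ K} {i : ℤ} {m : Fin n} {u : ℤ} :
    u ∈ H.perG i m ↔ (K : ℤ) ∣ u ∧ X a x (i + u) * (X a x i)⁻¹ ∈ P m := Iff.rfl

omit H in
/-- the coordinate `m` of `X i` is periodic -/
def Per (a x : G) (P : Fin n → Subgroup G) (K : ℕ) (i : ℤ) (m : Fin n) : Prop :=
  ∃ u : ℤ, u ≠ 0 ∧ (K : ℤ) ∣ u ∧ X a x (i + u) * (X a x i)⁻¹ ∈ P m

lemma comm_P {u : ℤ} (hu0 : u ≠ 0) (hu : (K : ℤ) ∣ u) {m : Fin n} {d : G} (hd : d ∈ D)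
    (h : a ^ u * d * a ^ (-u) * d⁻¹ ∈ P m) : d ∈ P m := by
  obtain ⟨s, hs, hs1, hs2⟩ := H.fam.comp m d hd
  have h1 : ∀ m', a ^ u * s * a ^ (-u) * s⁻¹ ∈ P m' := by
    intro m'
    by_cases hm : m' = m
    · subst hm
      have h2 : a ^ u * (s * d⁻¹) * a ^ (-u) ∈ P m' := by
        rw [← H.pres hu]
        have h3 := H.fam.norm m' s hs _ ((P m').inv_mem hs2)
        have e : s * (s⁻¹ * d)⁻¹ * s⁻¹ = s * d⁻¹ := by group
        rwa [e] at h3
      have h4 : d * s⁻¹ ∈ P m' := by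
        have h3 := H.fam.norm m' s hs _ hs2
        have e : s * (s⁻¹ * d) * s⁻¹ = d * s⁻¹ := by group
        rwa [e] at h3
      have h5 := (P m').mul_mem ((P m').mul_mem h2 h) h4
      have e : a ^ u * (s * d⁻¹) * a ^ (-u) * (a ^ u * d * a ^ (-u) * d⁻¹) * (d * s⁻¹) =
          a ^ u * s * a ^ (-u) * s⁻¹ := by
        rw [zpow_neg]
        group
      rwa [e] at h5
    · exact (P m').mul_mem ((H.pres hu m' s).1 (hs1 m' hm)) ((P m').inv_mem (hs1 m' hm))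
  have h2 := H.fam.triv _ h1
  have h3 := H.cent u s hu0 (H.dn hs) (mul_inv_eq_one.1 h2)
  rw [h3, inv_one, one_mul] at hs2
  exact hs2

lemma per_pair {i j : ℤ} {m : Fin n} (hi : Per a x P K i m) (hj : Per a x P K j m)
    (hd : X a x i * (X a x j)⁻¹ ∈ D) : X a x i * (X a x j)⁻¹ ∈ P m := by
  obtain ⟨u, hu0, hu⟩ := hi
  obtain ⟨w, hw0, hw⟩ := hj
  have h1 : w * u ∈ H.perG i m := by
    have := (H.perG i m).zsmul_mem (mem_perG.2 hu) w
    rwa [smul_eq_mul] at this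
  have h2 : w * u ∈ H.perG j m := by
    have := (H.perG j m).zsmul_mem (mem_perG.2 hw) u
    rwa [smul_eq_mul, mul_comm] at this
  refine H.comm_P (mul_ne_zero hw0 hu0) h1.1 hd ?_
  rw [cj_mul, cj_inv, X_conj, X_conj]
  have h3 := H.fam.norm m _ hd _ ((P m).inv_mem h2.2)
  have h4 := (P m).mul_mem h1.2 h3
  have e : X a x (i + w * u) * (X a x i)⁻¹ * (X a x i * (X a x j)⁻¹ *
      (X a x (j + w * u) * (X a x j)⁻¹)⁻¹ * (X a x i * (X a x j)⁻¹)⁻¹) =
      X a x (i + w * u) * (X a x (j + w * u))⁻¹ * (X a x i * (X a x j)⁻¹)⁻¹ := by group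
  rw [e] at h4
  rwa [add_comm (w * u) i, add_comm (w * u) j]

lemma per_of_mem {i j : ℤ} {m : Fin n} (hd : X a x i * (X a x j)⁻¹ ∈ P m)
    (hj : Per a x P K j m) : Per a x P K i m := by
  obtain ⟨u, hu0, hu, hu2⟩ := hj
  refine ⟨u, hu0, hu, ?_⟩
  have h1 := (H.pres hu m _).1 hd
  rw [cj_mul, cj_inv, X_conj, X_conj] at h1
  have h2 := (P m).mul_mem ((P m).mul_mem h1 (by rwa [add_comm u j] : X a x (u + j) * (X a x j)⁻¹ ∈ P m))
    ((P m).inv_mem hd)
  have e : X a x (u + i) * (X a x (u + j))⁻¹ * (X a x (u + j) * (X a x j)⁻¹) *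
      (X a x i * (X a x j)⁻¹)⁻¹ = X a x (u + i) * (X a x i)⁻¹ := by group
  rwa [e, add_comm u i] at h2

lemma per_iff {i j : ℤ} {m : Fin n} (hd : X a x i * (X a x j)⁻¹ ∈ P m) :
    Per a x P K i m ↔ Per a x P K j m := by
  refine ⟨fun h => H.per_of_mem ?_ h, fun h => H.per_of_mem hd h⟩
  have := (P m).inv_mem hd
  rwa [mul_inv_rev, inv_inv] at this

lemma per_shift (c i : ℤ) (m : Fin n) :
    Per a x P K (i + c) ((σ ^ c) m) ↔ Per a x P K i m := by
  unfold Per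
  refine exists_congr fun u => and_congr_right fun _ => and_congr_right fun _ => ?_
  rw [H.sigz c m, cj_mul, cj_inv, X_conj, X_conj, show c + (i + u) = i + c + u by ring,
    add_comm c i]

/-- not all coordinates are periodic -/
lemma not_all (i : ℤ) : ∃ m, ¬ Per a x P K i m := by
  by_contra hcon
  push Not at hcon
  choose u hu0 hu using hcon
  have h1 : ∀ m, (∏ m', u m') ∈ H.perG i m := by
    intro m
    obtain ⟨c, hc⟩ := Finset.dvd_prod_of_mem u (Finset.mem_univ m)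
    have := (H.perG i m).zsmul_mem (mem_perG.2 (hu m)) c
    rwa [smul_eq_mul, mul_comm, ← hc] at this
  have h2 : (∏ m', u m') ≠ 0 := Finset.prod_ne_zero_iff.2 fun m _ => hu0 m
  have h3 := H.fam.triv _ fun m => (h1 m).2
  have h4 := mul_inv_eq_one.1 h3
  have h5 : a ^ (∏ m', u m') * X a x i * a ^ (-(∏ m', u m')) = X a x i := by
    rw [X_conj, add_comm, h4]
  have h6 := H.cent _ _ h2 (H.hX i) h5
  apply H.xne
  unfold X at h6
  have h7 : a ^ i * x * a ^ (-i) = a ^ i * 1 * a ^ (-i) := by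
    rw [h6, mul_one, ← zpow_add, add_neg_cancel, zpow_zero]
  exact conj_inj' i h7

/-- the element of full support -/
lemma disj : ∃ i j : ℤ, ∀ m, ¬ (Per a x P K i m ∧ Per a x P K j m) := by
  obtain ⟨d, hd, hdm⟩ := H.fam.full
  obtain ⟨i, j, rfl⟩ := H.form d (H.dn hd)
  exact ⟨i, j, fun m h => hdm m (H.per_pair h.1 h.2 hd)⟩

/-- an element of the `m`-th factor -/
lemma factor (m : Fin n) : ∃ s ∈ D, (∀ m', m' ≠ m → s ∈ P m') ∧ s ∉ P m := by
  obtain ⟨d, hd, hdm⟩ := H.fam.full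
  obtain ⟨s, hs, h1, h2⟩ := H.fam.comp m d hd
  refine ⟨s, hs, h1, fun h3 => hdm m ?_⟩
  have := (P m).mul_mem h3 h2
  rwa [mul_inv_cancel_left] at this

/-- the chain lemma -/
lemma chain {m : Fin n} {i j : ℤ} (hij : i ≠ j)
    (hm : ∀ m', m' ≠ m → X a x i * (X a x j)⁻¹ ∈ P m') (hfix : (σ ^ (i - j)) m = m) :
    ∀ m', m' ≠ m → Per a x P K j m' := by
  let T : AddSubgroup ℤ :=
    { carrier := {u | (σ ^ u) m = m ∧ ∀ m', m' ≠ m → X a x (j + u) * (X a x j)⁻¹ ∈ P m'}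
      zero_mem' := by
        refine ⟨rfl, fun m' _ => ?_⟩
        rw [add_zero, mul_inv_cancel]
        exact (P m').one_mem
      add_mem' := by
        rintro u w ⟨hu, hu2⟩ ⟨hw, hw2⟩
        refine ⟨?_, ?_⟩
        · rw [zpow_add]
          show (σ ^ u) ((σ ^ w) m) = m
          rw [hw, hu]
        · intro m' hm'
          have hm1 : (σ ^ w)⁻¹ m' ≠ m := by
            intro h
            apply hm'
            rw [← hw, ← h, pm_ai]
          have h1 := (H.sigz w _ _).1 (hu2 _ hm1)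
          rw [pm_ai, cj_mul, cj_inv, X_conj, X_conj] at h1
          have h2 := (P m').mul_mem h1
            (by rw [add_comm w j]; exact hw2 m' hm' : X a x (w + j) * (X a x j)⁻¹ ∈ P m')
          rwa [mul_assoc, inv_mul_cancel_left, show w + (j + u) = j + (u + w) by ring] at h2
      neg_mem' := by
        rintro u ⟨hu, hu2⟩
        have hu' : (σ ^ (-u)) m = m := by
          rw [zpow_neg]
          nth_rewrite 1 [← hu]
          rw [pm_ia]
        refine ⟨hu', ?_⟩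
        intro m' hm'
        have hm1 : (σ ^ (-u))⁻¹ m' ≠ m := by
          intro h
          apply hm'
          rw [← hu', ← h, pm_ai]
        have h1 := (H.sigz (-u) _ _).1 (hu2 _ hm1)
        rw [pm_ai, cj_mul, cj_inv, X_conj, X_conj] at h1
        have h2 := (P m').inv_mem h1
        rwa [mul_inv_rev, inv_inv, show -u + (j + u) = j by ring, show -u + j = j + -u by ring] at h2 }
  have h1 : i - j ∈ T := ⟨hfix, fun m' hm' => by rw [show j + (i - j) = i by ring]; exact hm m' hm'⟩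
  have h2 : (K : ℤ) * (i - j) ∈ T := by
    have := T.zsmul_mem h1 (K : ℤ)
    rwa [smul_eq_mul] at this
  intro m' hm'
  have hK := H.kpos
  exact ⟨(K : ℤ) * (i - j), mul_ne_zero (by omega) (sub_ne_zero.2 hij), dvd_mul_right _ _,
    h2.2 m' hm'⟩

/-- any two coordinates: the others are periodic somewhere -/
lemma two {m m' : Fin n} (hmm : m ≠ m') :
    ∃ i : ℤ, ∀ m'', m'' ≠ m → m'' ≠ m' → Per a x P K i m'' := by
  obtain ⟨s, hs, hs1, hs2⟩ := H.factor m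
  obtain ⟨s', hs', hs1', hs2'⟩ := H.factor m'
  have hK := H.kpos
  have hKz : ∀ t : ℕ, (K : ℤ) ∣ (K : ℤ) * t := fun t => dvd_mul_right _ _
  have hcD : ∀ (u : ℤ) (d : G), (K : ℤ) ∣ u → d ∈ D → a ^ u * d * a ^ (-u) ∈ D := by
    intro u d hu hd
    obtain ⟨c, hc, hc1, hc2⟩ := H.fam.comp m d hd
    have h1 : a ^ u * (c⁻¹ * d) * a ^ (-u) ∈ D := H.fam.le m ((H.pres hu m _).1 hc2)
    have h2 : a ^ u * c * a ^ (-u) ∈ D := H.fam.le m' ((H.pres hu m' _).1 (hc1 m' hmm.symm))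
    have h3 := D.mul_mem h2 h1
    rwa [← cj_mul, mul_inv_cancel_left] at h3
  obtain ⟨d, hd⟩ : ∃ d : ℕ → G, d = fun t : ℕ => s * (a ^ ((K : ℤ) * t) * s' * a ^ (-((K : ℤ) * t))) :=
    ⟨_, rfl⟩
  have hdD : ∀ t, d t ∈ D := by
    intro t
    rw [hd]
    exact D.mul_mem hs (hcD _ _ (hKz t) hs')
  have hdP : ∀ t m'', m'' ≠ m → m'' ≠ m' → d t ∈ P m'' := by
    intro t m'' h1 h2
    rw [hd]
    exact (P m'').mul_mem (hs1 m'' h1) ((H.pres (hKz t) m'' _).1 (hs1' m'' h2))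
  choose i j hij using fun t => H.form (d t) (H.dn (hdD t))
  have : NeZero K := ⟨hK.ne'⟩
  obtain ⟨t, t', htt, heq⟩ := Finite.exists_ne_map_eq_of_infinite
    (fun t : ℕ => ((i t : ZMod K), (j t : ZMod K)))
  rw [Prod.mk.injEq, ZMod.intCast_eq_intCast_iff_dvd_sub, ZMod.intCast_eq_intCast_iff_dvd_sub] at heq
  obtain ⟨h1, h2⟩ := heq
  obtain ⟨w, hw⟩ : ∃ w, w = j t' - j t := ⟨_, rfl⟩
  rw [← hw] at h2
  -- the shifted element
  have hsh : a ^ w * d t * a ^ (-w) = X a x (i t + w) * (X a x (j t'))⁻¹ := by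
    rw [hij t, cj_mul, cj_inv, X_conj, X_conj, add_comm w (i t), show w + j t = j t' by omega]
  have hquot : ∀ m'', m'' ≠ m → m'' ≠ m' →
      X a x (i t') * (X a x (i t + w))⁻¹ ∈ P m'' := by
    intro m'' hm1 hm2
    have h3 := (P m'').mul_mem (hdP t' m'' hm1 hm2)
      ((P m'').inv_mem ((H.pres h2 m'' _).1 (hdP t m'' hm1 hm2)))
    rw [hsh, hij t'] at h3
    have e : X a x (i t') * (X a x (j t'))⁻¹ * (X a x (i t + w) * (X a x (j t'))⁻¹)⁻¹ =
        X a x (i t') * (X a x (i t + w))⁻¹ := by group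
    rwa [e] at h3
  by_cases hu : i t' = i t + w
  · exfalso
    have h3 : d t' = a ^ w * d t * a ^ (-w) := by rw [hsh, ← hu, ← hij t']
    -- first component
    have hw0 : w = 0 := by
      by_contra hw0
      apply hs2
      refine H.comm_P hw0 h2 hs ?_
      -- modulo `P m`
      have h4 : a ^ ((K : ℤ) * t') * s' * a ^ (-((K : ℤ) * t')) ∈ P m :=
        (H.pres (hKz t') m _).1 (hs1' m hmm)
      have h5 : a ^ ((K : ℤ) * t) * s' * a ^ (-((K : ℤ) * t)) ∈ P m :=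
        (H.pres (hKz t) m _).1 (hs1' m hmm)
      have h6 : a ^ w * (a ^ ((K : ℤ) * t) * s' * a ^ (-((K : ℤ) * t))) * a ^ (-w) ∈ P m :=
        (H.pres h2 m _).1 h5
      rw [hd] at h3
      have h7 : s * (a ^ ((K : ℤ) * t') * s' * a ^ (-((K : ℤ) * t'))) =
          a ^ w * (s * (a ^ ((K : ℤ) * t) * s' * a ^ (-((K : ℤ) * t)))) * a ^ (-w) := h3
      rw [cj_mul] at h7
      have h8 : a ^ w * s * a ^ (-w) * s⁻¹ = s * (a ^ ((K : ℤ) * t') * s' * a ^ (-((K : ℤ) * t'))) *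
          (a ^ w * (a ^ ((K : ℤ) * t) * s' * a ^ (-((K : ℤ) * t))) * a ^ (-w))⁻¹ * s⁻¹ := by
        rw [h7]
        group
      rw [h8]
      have h9 := H.fam.norm m s hs _ ((P m).mul_mem h4 ((P m).inv_mem h6))
      rwa [← mul_assoc] at h9
    rw [hw0, cj_zero] at h3
    rw [hd] at h3
    have h4 : a ^ ((K : ℤ) * t') * s' * a ^ (-((K : ℤ) * t')) =
        a ^ ((K : ℤ) * t) * s' * a ^ (-((K : ℤ) * t)) := mul_left_cancel h3
    have h5 : a ^ ((K : ℤ) * t' - (K : ℤ) * t) * s' * a ^ (-((K : ℤ) * t' - (K : ℤ) * t)) = s' := by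
      rw [show (K : ℤ) * t' - (K : ℤ) * t = -((K : ℤ) * t) + (K : ℤ) * t' by ring, cj_add, h4, cj_neg]
    have h6 := H.cent _ s' (by
      rw [← mul_sub]
      refine mul_ne_zero (by omega) ?_
      omega) (H.dn hs') h5
    rw [h6] at hs2'
    exact hs2' (P m').one_mem
  · refine ⟨i t + w, fun m'' hm1 hm2 => ⟨i t' - (i t + w), by omega, ?_, ?_⟩⟩
    · have : i t' - (i t + w) = (i t' - i t) - w := by ring
      rw [this]
      exact dvd_sub h1 h2
    · rw [show i t + w + (i t' - (i t + w)) = i t' by ring]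
      exact hquot m'' hm1 hm2

end Ac

end Pool.Agent.Work.MP_302c96_al.Str
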