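import Pool.Agent.Work.MP_302c96_al.Str.Fg

/-! Consequences of an infinite proper quotient. -/

set_option autoImplicit false

open scoped commutatorElement

namespace Pool.Agent.Work.MP_302c96_al.Str

open Pool.Agent.Work.MP_302c96_al.Mal

universe u

variable {G : Type u} [Group G] {a x : G}

/-- No abelian normal subgroups. -/
lemma no_ab (h : Ctx a x) (S : Subgroup G) (hS : S.Normal)
    (hab : ∀ s ∈ S, ∀ t ∈ S, s * t = t * s) : S = ⊥ := by
  have hsol : Group.IsSolvable S := by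
    let _ : CommGroup S := { (inferInstance : Group S) with
      mul_comm := fun m n => Subtype.ext (hab m.1 m.2 n.1 n.2) }
    infer_instance
  have hle : ∀ m ∈ S, ∃ k : ℤ, m = a ^ k :=
    I_Main I_Norm I_Mod (I_Ring I_CharP (I_Upper I_NonInt I_Kron I_CBound) I_Count)
      a x h.cov h.inf h.mal S hsol (fun m hm => hS.conj_mem m hm a)
      (fun m hm => by simpa using hS.conj_mem m hm a⁻¹)
  rw [Subgroup.eq_bot_iff_forall]
  intro s hs
  obtain ⟨k, rfl⟩ := hle s hs
  by_contra hs1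
  have hk : k ≠ 0 := by
    rintro rfl
    exact hs1 (zpow_zero a)
  obtain ⟨l, hl⟩ := hle _ (hS.conj_mem _ hs x)
  exact h.ne (h.mal x k l hk hl)

lemma comm_fin (h : Ctx a x) (K : Subgroup G) [K.Normal] (hK : K ≠ ⊥) :
    Finite (commutator (G ⧸ K)) :=
  (I_Quot I_Central I_Index a x h.cov h.inf K hK).2

lemma comm_map (K : Subgroup G) [K.Normal] :
    (commutator G).map (QuotientGroup.mk' K) = commutator (G ⧸ K) := by
  rw [commutator_def, commutator_def, Subgroup.map_commutator, ← MonoidHom.range_eq_map,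
    MonoidHom.range_eq_top.2 (QuotientGroup.mk'_surjective K)]

/-- every nontrivial normal subgroup has finite index relative to the commutator subgroup. -/
lemma rel (h : Ctx a x) (K : Subgroup G) [hn : K.Normal] (hK : K ≠ ⊥) :
    K.relIndex (commutator G) ≠ 0 := by
  have h1 : (QuotientGroup.mk' K).ker.relIndex (commutator G) =
      Nat.card ((commutator G).map (QuotientGroup.mk' K)) := Subgroup.relIndex_ker _ _
  rw [QuotientGroup.ker_mk'] at h1
  rw [h1, comm_map]
  have := comm_fin h K hK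
  exact Nat.card_pos.ne'

lemma pow_mem_of_rel {K L : Subgroup G} (hn : K.Normal) (hK : K.relIndex L ≠ 0) :
    ∃ n : ℕ, 0 < n ∧ ∀ g ∈ L, g ^ n ∈ K := by
  refine ⟨K.relIndex L, Nat.pos_of_ne_zero hK, fun g hg => ?_⟩
  have h1 : (K.subgroupOf L).Normal := inferInstance
  have h2 := Subgroup.pow_index_mem (K.subgroupOf L) ⟨g, hg⟩
  exact h2

/-- an infinite proper quotient forces an infinite abelianisation. -/
lemma inf_ab (h : Ctx a x) (K : Subgroup G) [K.Normal] (hK : K ≠ ⊥) (hi : Infinite (G ⧸ K)) :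
    ∀ n : ℤ, a ^ n ∈ commutator G → n = 0 := by
  intro n hn
  by_contra h0
  have hfin := comm_fin h K hK
  obtain ⟨m, hm, hm1⟩ : ∃ m : ℕ, 0 < m ∧ a ^ (m : ℤ) ∈ commutator G := by
    rcases lt_or_gt_of_ne h0 with h1 | h1
    · refine ⟨(-n).toNat, by omega, ?_⟩
      rw [show ((-n).toNat : ℤ) = -n by omega, zpow_neg]
      exact Subgroup.inv_mem _ hn
    · refine ⟨n.toNat, by omega, ?_⟩
      rwa [show (n.toNat : ℤ) = n by omega]
  -- everything is `a ^ k` times a commutator element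
  have hform : ∀ g : G, ∃ k : ℤ, ∃ c ∈ commutator G, g = a ^ k * c := by
    intro g
    obtain ⟨i, j, k, hg⟩ := h.cov g
    refine ⟨i + j + k, (a ^ (i + j + k))⁻¹ * g, ?_, by rw [mul_inv_cancel_left]⟩
    rw [← QuotientGroup.eq_one_iff]
    have e : ((a ^ (i + j + k))⁻¹ * g : G) = ((a ^ (i + j + k))⁻¹ * (a ^ i * (x * a ^ j * x⁻¹) * a ^ k) : G) := by
      rw [hg]
    rw [e]
    show (Abelianization.of ((a ^ (i + j + k))⁻¹ * (a ^ i * (x * a ^ j * x⁻¹) * a ^ k)) : Abelianization G) = 1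
    simp only [map_mul, map_inv, map_zpow, zpow_add]
    generalize Abelianization.of a = y
    generalize Abelianization.of x = z
    rw [mul_comm z, mul_inv_cancel_right]
    exact inv_mul_cancel _
  have : Finite (G ⧸ K) := by
    refine Finite.of_surjective
      (fun t : Fin m × commutator (G ⧸ K) => (QuotientGroup.mk' K a) ^ (t.1 : ℕ) * (t.2 : G ⧸ K)) ?_
    intro q
    obtain ⟨g, rfl⟩ := QuotientGroup.mk'_surjective K q
    obtain ⟨k, c, hc, rfl⟩ := hform g
    have hm0 : (m : ℤ) ≠ 0 := by exact_mod_cast hm.ne'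
    have hr1 := Int.emod_nonneg k hm0
    have hr2 := Int.emod_lt_of_pos k (by exact_mod_cast hm : (0 : ℤ) < m)
    have hcc : a ^ ((m : ℤ) * (k / m)) * c ∈ commutator G := by
      rw [zpow_mul]
      exact Subgroup.mul_mem _ (Subgroup.zpow_mem _ hm1 _) hc
    refine ⟨(⟨(k % m).toNat, by omega⟩, ⟨QuotientGroup.mk' K (a ^ ((m : ℤ) * (k / m)) * c), ?_⟩), ?_⟩
    · rw [← comm_map]
      exact Subgroup.mem_map_of_mem _ hcc
    · show (QuotientGroup.mk' K a) ^ ((k % m).toNat) * QuotientGroup.mk' K (a ^ ((m : ℤ) * (k / m)) * c) = _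
      rw [← map_pow, ← map_mul]
      congr 1
      rw [← zpow_natCast, ← mul_assoc, ← zpow_add]
      congr 2
      have := Int.emod_add_mul_ediv k m
      omega
  exact not_finite (G ⧸ K)

lemma gauge (h : Ctx a x) : ∃ c : ℤ, Ctx a (x * a ^ c) ∧ x * a ^ c ∈ commutator G := by
  obtain ⟨i, j, k, hg⟩ := h.cov x
  refine ⟨-(i + j + k), ⟨?_, h.inf, h.mal, ?_⟩, ?_⟩
  · intro g
    obtain ⟨i', j', k', hg'⟩ := h.cov g
    refine ⟨i', j', k', ?_⟩
    rw [hg']
    congr 2
    rw [mul_inv_rev]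
    have : a ^ (-(i + j + k)) * a ^ j' * (a ^ (-(i + j + k)))⁻¹ = a ^ j' := by
      rw [← zpow_add, ← zpow_neg, ← zpow_add]
      congr 1
      ring
    calc x * a ^ j' * x⁻¹ = x * (a ^ (-(i + j + k)) * a ^ j' * (a ^ (-(i + j + k)))⁻¹) * x⁻¹ := by rw [this]
      _ = _ := by group
  · rintro ⟨l, hl⟩
    refine h.ne ⟨l + (i + j + k), ?_⟩
    rw [zpow_add, ← hl, mul_assoc, ← zpow_add, neg_add_cancel, zpow_zero, mul_one]
  · rw [← QuotientGroup.eq_one_iff]
    show (Abelianization.of (x * a ^ (-(i + j + k))) : Abelianization G) = 1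
    rw [map_mul]
    nth_rewrite 1 [hg]
    rw [zpow_neg, zpow_add, zpow_add]
    simp only [map_mul, map_inv, map_zpow]
    generalize Abelianization.of a = y
    generalize Abelianization.of x = z
    rw [mul_comm z, mul_inv_cancel_right]
    exact mul_inv_cancel _

end Pool.Agent.Work.MP_302c96_al.Str
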