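import Pool.Agent.Work.MP_302c96_al.Str.Core
import Pool.Agent.Work.MP_302c96_al.Str.FinSub

/-! The finite residual of a counterexample. -/

set_option autoImplicit false

open scoped commutatorElement

namespace Pool.Agent.Work.MP_302c96_al.Str

open Pool.Agent.Work.MP_302c96_al.Mal

universe u

/-- the finite residual -/
def Rs (G : Type u) [Group G] : Subgroup G := sInf {H | H.FiniteIndex}

section

variable {G : Type u} [Group G] {a x : G}

lemma mem_Rs {g : G} : g ∈ Rs G ↔ ∀ H : Subgroup G, H.FiniteIndex → g ∈ H := by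
  unfold Rs
  rw [Subgroup.mem_sInf]
  rfl

lemma Rs_le {H : Subgroup G} (hH : H.FiniteIndex) : Rs G ≤ H := fun _ hg => mem_Rs.1 hg H hH

instance Rs_normal : (Rs G).Normal := by
  refine ⟨fun y hy g => mem_Rs.2 fun H hH => ?_⟩
  have h1 : (H.comap (MulAut.conj g).toMonoidHom).FiniteIndex := by
    refine ⟨?_⟩
    rw [Subgroup.index_comap_of_surjective H (f := (MulAut.conj g).toMonoidHom) (MulAut.conj g).surjective]
    exact hH.index_ne_zero
  exact mem_Rs.1 hy _ h1

lemma form_comm (h : Ctx a x) (g : G) : ∃ k : ℤ, ∃ c ∈ commutator G, g = c * a ^ k := by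
  obtain ⟨i, j, k, hg⟩ := h.cov g
  refine ⟨i + j + k, g * (a ^ (i + j + k))⁻¹, ?_, by rw [inv_mul_cancel_right]⟩
  rw [← QuotientGroup.eq_one_iff]
  rw [hg]
  show (Abelianization.of ((a ^ i * (x * a ^ j * x⁻¹) * a ^ k) * (a ^ (i + j + k))⁻¹) : Abelianization G) = 1
  simp only [map_mul, map_inv, map_zpow, zpow_add]
  generalize Abelianization.of a = y
  generalize Abelianization.of x = z
  rw [mul_comm z, mul_inv_cancel_right]
  exact mul_inv_cancel _

/-- the residual lies in the commutator subgroup, if the abelianisation is infinite -/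
lemma Rs_le_comm (h : Ctx a x) (hA : ∀ n : ℤ, a ^ n ∈ commutator G → n = 0) :
    Rs G ≤ commutator G := by
  intro g hg
  obtain ⟨k, c, hc, rfl⟩ := form_comm h g
  by_cases hk : k = 0
  · rw [hk, zpow_zero, mul_one]
    exact hc
  exfalso
  obtain ⟨m, hm⟩ : ∃ m : ℕ, m = k.natAbs + 1 := ⟨_, rfl⟩
  let H : Subgroup G := (Subgroup.zpowers ((Abelianization.of a : Abelianization G) ^ m)).comap Abelianization.of
  have hfin : Finite (G ⧸ H) := by
    refine Finite.of_surjective (fun r : Fin m => ((a ^ (r : ℕ) : G) : G ⧸ H)) ?_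
    intro q
    obtain ⟨g, rfl⟩ := QuotientGroup.mk_surjective q
    obtain ⟨l, c', hc', rfl⟩ := form_comm h g
    have hm0 : (m : ℤ) ≠ 0 := by omega
    have hr1 := Int.emod_nonneg l hm0
    have hr2 := Int.emod_lt_of_pos l (by omega : (0 : ℤ) < m)
    refine ⟨⟨(l % m).toNat, by omega⟩, ?_⟩
    show ((a ^ (l % m).toNat : G) : G ⧸ H) = _
    rw [QuotientGroup.eq]
    show Abelianization.of ((a ^ (l % m).toNat)⁻¹ * (c' * a ^ l)) ∈ Subgroup.zpowers ((Abelianization.of a : Abelianization G) ^ m)
    have h1 : (Abelianization.of c' : Abelianization G) = 1 := (QuotientGroup.eq_one_iff _).2 hc'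
    rw [map_mul, map_mul, h1, one_mul, map_inv, map_pow, map_zpow,
      ← zpow_natCast _ (l % (m : ℤ)).toNat, ← zpow_neg, ← zpow_add]
    refine ⟨l / m, ?_⟩
    show ((Abelianization.of a : Abelianization G) ^ m) ^ (l / (m : ℤ)) = _
    rw [← zpow_natCast, ← zpow_mul]
    congr 1
    have := Int.emod_add_mul_ediv l m
    omega
  have hfi : H.FiniteIndex := Subgroup.finiteIndex_of_finite_quotient
  have h1 : c * a ^ k ∈ H := Rs_le hfi hg
  obtain ⟨t, ht⟩ : Abelianization.of (c * a ^ k) ∈ Subgroup.zpowers ((Abelianization.of a : Abelianization G) ^ m) := h1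
  have h2 : (Abelianization.of c : Abelianization G) = 1 := (QuotientGroup.eq_one_iff _).2 hc
  have h3 : ((Abelianization.of a : Abelianization G) ^ m) ^ t = Abelianization.of a ^ k := by
    have : ((Abelianization.of a : Abelianization G) ^ m) ^ t = Abelianization.of (c * a ^ k) := ht
    rw [this, map_mul, h2, one_mul, map_zpow]
  have h4 : a ^ ((m : ℤ) * t - k) ∈ commutator G := by
    rw [← QuotientGroup.eq_one_iff]
    show (Abelianization.of (a ^ ((m : ℤ) * t - k)) : Abelianization G) = 1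
    rw [map_zpow, zpow_sub, zpow_mul, zpow_natCast, h3, mul_inv_cancel]
  have h5 := hA _ h4
  have h6 : k = m * t := by omega
  have h7 : k.natAbs = m * t.natAbs := by
    rw [h6, Int.natAbs_mul, Int.natAbs_natCast]
  have h8 : t.natAbs ≠ 0 := by
    intro h9
    rw [h9, mul_zero] at h7
    omega
  have h9 : m * 1 ≤ m * t.natAbs := Nat.mul_le_mul_left m (by omega)
  omega

lemma Rs_le_of_rel (h : Ctx a x) (hA : ∀ n : ℤ, a ^ n ∈ commutator G → n = 0) (K : Subgroup G)
    [hn : K.Normal] (hK : K ≤ commutator G) (hr : K.relIndex (commutator G) ≠ 0) : Rs G ≤ K := by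
  let M : Subgroup G := (Subgroup.zpowers (QuotientGroup.mk' K a)).comap (QuotientGroup.mk' K)
  have haM : ∀ k : ℤ, a ^ k ∈ M := fun k => ⟨k, by
    show (QuotientGroup.mk' K a) ^ k = QuotientGroup.mk' K (a ^ k)
    rw [map_zpow]⟩
  have hKM : K ≤ M := by
    intro y hy
    refine ⟨0, ?_⟩
    show (QuotientGroup.mk' K a) ^ (0 : ℤ) = QuotientGroup.mk' K y
    rw [zpow_zero]
    exact ((QuotientGroup.eq_one_iff y).2 hy).symm
  have hfinN : (K.subgroupOf (commutator G)).FiniteIndex := ⟨hr⟩
  have hfin : Finite (G ⧸ M) := by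
    refine Finite.of_surjective
      (fun q : commutator G ⧸ K.subgroupOf (commutator G) => ((q.out.1 : G) : G ⧸ M)) ?_
    intro q
    obtain ⟨g, rfl⟩ := QuotientGroup.mk_surjective q
    obtain ⟨k, c, hc, rfl⟩ := form_comm h g
    refine ⟨((⟨c, hc⟩ : commutator G) : commutator G ⧸ K.subgroupOf (commutator G)), ?_⟩
    show (((((⟨c, hc⟩ : commutator G) : commutator G ⧸ K.subgroupOf (commutator G)).out : commutator G) : G) : G ⧸ M) = _
    rw [QuotientGroup.eq]
    have h1 : ((((⟨c, hc⟩ : commutator G) : commutator G ⧸ K.subgroupOf (commutator G)).out : commutator G) : commutator G ⧸ K.subgroupOf (commutator G)) = ((⟨c, hc⟩ : commutator G) : commutator G ⧸ K.subgroupOf (commutator G)) := QuotientGroup.out_eq' _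
    rw [QuotientGroup.eq, Subgroup.mem_subgroupOf] at h1
    rw [← mul_assoc]
    exact M.mul_mem (hKM h1) (haM k)
  have hfi : M.FiniteIndex := Subgroup.finiteIndex_of_finite_quotient
  intro g hg
  obtain ⟨t, ht⟩ : QuotientGroup.mk' K g ∈ Subgroup.zpowers (QuotientGroup.mk' K a) := Rs_le hfi hg
  have h1 : (QuotientGroup.mk' K a) ^ t = QuotientGroup.mk' K g := ht
  rw [← map_zpow] at h1
  have h2 : (a ^ t)⁻¹ * g ∈ K := QuotientGroup.eq.1 h1
  have h3 : a ^ t ∈ commutator G := by
    have h4 := (commutator G).mul_mem (Rs_le_comm h hA hg) ((commutator G).inv_mem (hK h2))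
    rwa [mul_inv_rev, inv_inv, mul_inv_cancel_left] at h4
  have h5 := hA t h3
  rw [h5, zpow_zero, inv_one, one_mul] at h2
  exact h2

/-- The ambient finitely generated normal subgroup in which the residual has finite index. -/
structure Amb (a : G) (L : Subgroup G) : Prop where
  normal : L.Normal
  fg : L.FG
  le : Rs G ≤ L
  rel : (Rs G).relIndex L ≠ 0
  small : ∀ K : Subgroup G, K.Normal → K ≤ L → K.relIndex L ≠ 0 → Rs G ≤ K
  cases : (L = ⊤ ∧ (Rs G).FiniteIndex) ∨
    (L = commutator G ∧ ∀ n : ℤ, a ^ n ∈ commutator G → n = 0)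

lemma exists_amb (h : Ctx a x) (hD : Rs G ≠ ⊥) : ∃ L : Subgroup G, Amb a L := by
  by_cases hfi : (Rs G).FiniteIndex
  · refine ⟨⊤, inferInstance, top_fg h, le_top, ?_, ?_, Or.inl ⟨rfl, hfi⟩⟩
    · rw [Subgroup.relIndex_top_right]
      exact hfi.index_ne_zero
    · intro K _ _ hK
      rw [Subgroup.relIndex_top_right] at hK
      exact Rs_le ⟨hK⟩
  · have hi : Infinite (G ⧸ Rs G) := by
      by_contra hfin
      have := not_infinite_iff_finite.1 hfin
      exact hfi Subgroup.finiteIndex_of_finite_quotient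
    have hA := inf_ab h (Rs G) hD hi
    exact ⟨commutator G, inferInstance, comm_fg h hA, Rs_le_comm h hA, rel h (Rs G) hD,
      fun K hKn hKle hKr => Rs_le_of_rel h hA K hKle hKr, Or.inr ⟨rfl, hA⟩⟩

lemma Rs_fg {L : Subgroup G} (hL : Amb a L) : Group.FG (Rs G) := by
  have := (Group.fg_iff_subgroup_fg L).2 hL.fg
  have hfi : ((Rs G).subgroupOf L).FiniteIndex := ⟨hL.rel⟩
  have h1 : Group.FG ((Rs G).subgroupOf L) := inferInstance
  exact Group.fg_of_surjective (f := (Subgroup.subgroupOfEquivOfLe hL.le).toMonoidHom)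
    (Subgroup.subgroupOfEquivOfLe hL.le).surjective

/-- the residual has no proper subgroup of finite index -/
lemma Rs_no_fin {L : Subgroup G} (hL : Amb a L) (K : Subgroup G) (hK : K ≤ Rs G)
    (hr : K.relIndex (Rs G) ≠ 0) : K = Rs G := by
  have := hL.normal
  have h1 : K.relIndex L ≠ 0 := Subgroup.relIndex_ne_zero_trans hr hL.rel
  have h2 := core_rel L hL.fg K h1
  exact le_antisymm hK ((hL.small K.normalCore inferInstance
    (K.normalCore_le.trans (hK.trans hL.le)) h2).trans K.normalCore_le)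

/-- the residual is a minimal normal subgroup -/
lemma Rs_min (h : Ctx a x) {L : Subgroup G} (hL : Amb a L) (K : Subgroup G) [hn : K.Normal]
    (hK : K ≤ Rs G) (hK1 : K ≠ ⊥) : K = Rs G := by
  refine le_antisymm hK (hL.small K hn (hK.trans hL.le) ?_)
  rcases hL.cases with ⟨hT, hfi⟩ | ⟨hC, _⟩
  · rw [hT, Subgroup.relIndex_top_right]
    intro h0
    have hi : Infinite (G ⧸ K) := by
      by_contra hfin
      have := not_infinite_iff_finite.1 hfin
      have hKfi : K.FiniteIndex := Subgroup.finiteIndex_of_finite_quotient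
      exact hKfi.index_ne_zero h0
    have hA := inf_ab h K hK1 hi
    have h1 := Rs_le_comm h hA
    have h2 : (commutator G).FiniteIndex := Subgroup.finiteIndex_of_le h1
    have h3 := Subgroup.pow_index_mem (commutator G) a
    have h4 := hA (commutator G).index (by rwa [zpow_natCast])
    exact h2.index_ne_zero (by exact_mod_cast h4)
  · rw [hC]
    exact Str.rel h K hK1

end

end Pool.Agent.Work.MP_302c96_al.Str
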