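import Pool.Agent.Work.MP_302c96_al.Str.Per

/-! The finite residual of a counterexample is simple. -/

set_option autoImplicit false

namespace Pool.Agent.Work.MP_302c96_al.Str

open Pool.Agent.Work.MP_302c96_al.Mal

universe u v

section exponent

variable {S : Type v} [Group S]

lemma exp_two (h : ∀ g : S, g * g = 1) (s t : S) : s * t = t * s := by
  have hi : ∀ g : S, g⁻¹ = g := fun g => inv_eq_of_mul_eq_one_left (h g)
  calc s * t = (s * t)⁻¹ := (hi _).symm
    _ = t⁻¹ * s⁻¹ := mul_inv_rev s t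
    _ = t * s := by rw [hi, hi]

lemma exp_three_conj (h : ∀ g : S, g * g * g = 1) (u y : S) :
    u * (y * u * y⁻¹) = (y * u * y⁻¹) * u := by
  have h1 : y⁻¹ * y⁻¹ = y := by
    have := h y⁻¹
    have h2 : y⁻¹ * y⁻¹ = (y⁻¹)⁻¹ := eq_inv_of_mul_eq_one_left this
    rw [h2, inv_inv]
  have h2 : y * y = y⁻¹ := eq_inv_of_mul_eq_one_left (h y)
  have hA : (y * u * y⁻¹) * (y⁻¹ * u * y) * u = 1 := by
    calc (y * u * y⁻¹) * (y⁻¹ * u * y) * u = y * u * (y⁻¹ * y⁻¹) * u * y * u := by group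
      _ = (y * u) * (y * u) * (y * u) := by rw [h1]; group
      _ = 1 := h _
  have hB : (y⁻¹ * u * y) * (y * u * y⁻¹) * u = 1 := by
    calc (y⁻¹ * u * y) * (y * u * y⁻¹) * u = y⁻¹ * u * (y * y) * u * y⁻¹ * u := by group
      _ = (y⁻¹ * u) * (y⁻¹ * u) * (y⁻¹ * u) := by rw [h2]; group
      _ = 1 := h _
  have hA' : (y * u * y⁻¹) * (y⁻¹ * u * y) = u⁻¹ := eq_inv_of_mul_eq_one_left hA
  have hB' : (y⁻¹ * u * y) * (y * u * y⁻¹) = u⁻¹ := eq_inv_of_mul_eq_one_left hB
  have h3 : u⁻¹ * (y * u * y⁻¹) = (y * u * y⁻¹) * u⁻¹ := by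
    nth_rewrite 1 [← hA']
    rw [mul_assoc, hB']
  calc u * (y * u * y⁻¹) = u * ((y * u * y⁻¹) * u⁻¹) * u := by group
    _ = u * (u⁻¹ * (y * u * y⁻¹)) * u := by rw [h3]
    _ = (y * u * y⁻¹) * u := by group

lemma exp_three (hS : IsSimpleGroup S) (h : ∀ g : S, g * g * g = 1) (s t : S) : s * t = t * s := by
  have hnt : ∃ u : S, u ≠ 1 := by
    obtain ⟨p, q, hpq⟩ := hS.exists_pair_ne
    by_cases hp : p = 1
    · exact ⟨q, fun hq => hpq (by rw [hp, hq])⟩
    · exact ⟨p, hp⟩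
  obtain ⟨u, hu⟩ := hnt
  have hCn : (Subgroup.centralizer (Set.range fun y : S => y * u * y⁻¹)).Normal := by
    refine ⟨fun n hn g => ?_⟩
    rw [Subgroup.mem_centralizer_iff] at hn ⊢
    rintro _ ⟨y, rfl⟩
    have h1 := hn _ ⟨g⁻¹ * y, rfl⟩
    have e : g⁻¹ * y * u * (g⁻¹ * y)⁻¹ = g⁻¹ * (y * u * y⁻¹) * g := by group
    have h1' : g⁻¹ * y * u * (g⁻¹ * y)⁻¹ * n = n * (g⁻¹ * y * u * (g⁻¹ * y)⁻¹) := h1
    rw [e] at h1'
    show y * u * y⁻¹ * (g * n * g⁻¹) = g * n * g⁻¹ * (y * u * y⁻¹)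
    calc y * u * y⁻¹ * (g * n * g⁻¹) = g * (g⁻¹ * (y * u * y⁻¹) * g * n) * g⁻¹ := by group
      _ = g * (n * (g⁻¹ * (y * u * y⁻¹) * g)) * g⁻¹ := by rw [h1']
      _ = g * n * g⁻¹ * (y * u * y⁻¹) := by group
  have hCu : u ∈ Subgroup.centralizer (Set.range fun y : S => y * u * y⁻¹) := by
    rw [Subgroup.mem_centralizer_iff]
    rintro _ ⟨y, rfl⟩
    exact (exp_three_conj h u y).symm
  have hC : Subgroup.centralizer (Set.range fun y : S => y * u * y⁻¹) = ⊤ := by
    rcases hS.eq_bot_or_eq_top_of_normal _ hCn with h1 | h1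
    · rw [h1, Subgroup.mem_bot] at hCu
      exact absurd hCu hu
    · exact h1
  have hZ : u ∈ Subgroup.center S := by
    rw [Subgroup.mem_center_iff]
    intro g
    have h1 : g ∈ Subgroup.centralizer (Set.range fun y : S => y * u * y⁻¹) := by
      rw [hC]
      exact Subgroup.mem_top g
    rw [Subgroup.mem_centralizer_iff] at h1
    have h2 := h1 _ ⟨1, rfl⟩
    have h2' : 1 * u * 1⁻¹ * g = g * (1 * u * 1⁻¹) := h2
    rw [one_mul, inv_one, mul_one] at h2'
    exact h2'.symm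
  have hZt : Subgroup.center S = ⊤ := by
    rcases hS.eq_bot_or_eq_top_of_normal (Subgroup.center S) inferInstance with h1 | h1
    · rw [h1, Subgroup.mem_bot] at hZ
      exact absurd hZ hu
    · exact h1
  have ht : t ∈ Subgroup.center S := by
    rw [hZt]
    exact Subgroup.mem_top t
  exact Subgroup.mem_center_iff.1 ht s

end exponent

section orbit

variable {G : Type u} [Group G] {a : G}

lemma P_zero_one (s : G) : P a s 0 1 := by
  unfold P
  rw [X_zero, zpow_one]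

/-- an element of finite order whose conjugate by `a ^ c` is a power of it -/
lemma fin_zero {s : G} (hfree : ∀ u : ℤ, u ≠ 0 → X a s u ≠ s) {c m : ℤ} (hP : P a s c m)
    {n : ℤ} (hn : n ≠ 0) (hs : s ^ n = 1) : c = 0 := by
  by_contra hc
  have hfin : IsOfFinOrder s := isOfFinOrder_iff_zpow_eq_one.2 ⟨n, hn, hs⟩
  have : Finite (Subgroup.zpowers s) := finite_zpowers.2 hfin
  let f : ℕ → Subgroup.zpowers s := fun r => ⟨s ^ (m ^ r), ⟨_, rfl⟩⟩
  obtain ⟨r, r', hrr, hf⟩ := Finite.exists_ne_map_eq_of_infinite f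
  have h1 : s ^ (m ^ r) = s ^ (m ^ r') := congrArg Subtype.val hf
  have h2 : X a s (r * c) = s ^ (m ^ r) := P_pow hP r
  have h3 : X a s (r' * c) = s ^ (m ^ r') := P_pow hP r'
  rw [← h2, ← h3] at h1
  refine hfree (r * c - r' * c) ?_ ?_
  · rw [← sub_mul]
    refine mul_ne_zero ?_ hc
    omega
  · have h4 : a ^ (-(r' * c : ℤ)) * X a s (r * c) * a ^ (-(-(r' * c : ℤ))) =
        a ^ (-(r' * c : ℤ)) * X a s (r' * c) * a ^ (-(-(r' * c : ℤ))) := by rw [h1]
    rw [X_conj, X_conj] at h4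
    rw [show (r : ℤ) * c - r' * c = -(r' * c) + r * c by ring, h4,
      show -((r' : ℤ) * c) + r' * c = 0 by ring, X_zero]

lemma two_or_three {s : G} (hfree : ∀ u : ℤ, u ≠ 0 → X a s u ≠ s)
    (h2 : s * s ≠ 1 → ∃ c : ℤ, P a s c 2 ∨ P a s c (-2))
    (h3 : s * s * s ≠ 1 → ∃ c : ℤ, P a s c 3 ∨ P a s c (-3)) :
    s * s = 1 ∨ s * s * s = 1 := by
  by_contra hcon
  push Not at hcon
  obtain ⟨hn2, hn3⟩ := hcon
  have hs1 : s ≠ 1 := by
    rintro rfl
    exact hn2 (one_mul 1)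
  obtain ⟨c, m, hm, hP⟩ : ∃ c m : ℤ, (m = 2 ∨ m = -2) ∧ P a s c m := by
    obtain ⟨c, h | h⟩ := h2 hn2
    · exact ⟨c, 2, Or.inl rfl, h⟩
    · exact ⟨c, -2, Or.inr rfl, h⟩
  obtain ⟨c', m', hm', hP'⟩ : ∃ c m : ℤ, (m = 3 ∨ m = -3) ∧ P a s c m := by
    obtain ⟨c, h | h⟩ := h3 hn3
    · exact ⟨c, 3, Or.inl rfl, h⟩
    · exact ⟨c, -3, Or.inr rfl, h⟩
  have hc : c ≠ 0 := by
    rintro rfl
    have h1 : s = s ^ m := by
      have := hP
      unfold P at this
      rwa [X_zero] at this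
    rcases hm with rfl | rfl
    · apply hs1
      have h4 : s = s * s := by
        rwa [zpow_ofNat, pow_two] at h1
      exact (mul_eq_left.1 h4.symm)
    · apply hn3
      have h4 : s = (s * s)⁻¹ := by
        rwa [zpow_neg, zpow_ofNat, pow_two] at h1
      nth_rewrite 3 [h4]
      rw [mul_inv_cancel]
  by_cases hord : ∀ n : ℤ, s ^ n = 1 → n = 0
  · have hc' : c' ≠ 0 := by
      rintro rfl
      have h1 := P_inj hord hP' (P_zero_one s)
      rcases hm' with h | h <;> omega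
    have hQ := P_pow hP c'.natAbs
    have hQ' := P_pow hP' c.natAbs
    have hev : Even (m ^ c'.natAbs) := by
      have : Even m := by
        rcases hm with rfl | rfl
        · exact ⟨1, by norm_num⟩
        · exact ⟨-1, by norm_num⟩
      exact (Int.even_pow.2 ⟨this, by omega⟩)
    have hod : Odd (m' ^ c.natAbs) := by
      have : Odd m' := by
        rcases hm' with rfl | rfl
        · exact ⟨1, by norm_num⟩
        · exact ⟨-2, by norm_num⟩
      exact this.pow
    rcases eq_or_ne (c'.natAbs * c) (c.natAbs * c' : ℤ) with heq | hne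
    · rw [heq] at hQ
      have h1 := P_inj hord hQ hQ'
      rw [h1] at hev
      exact (Int.not_even_iff_odd.2 hod) hev
    · have heq : (c'.natAbs : ℤ) * c + c.natAbs * c' = 0 := by
        rcases abs_cases c with ⟨h1, h1'⟩ | ⟨h1, h1'⟩ <;> rcases abs_cases c' with ⟨h2, h2'⟩ | ⟨h2, h2'⟩
        · exfalso; apply hne; rw [Int.natCast_natAbs, Int.natCast_natAbs, h1, h2]; ring
        · rw [Int.natCast_natAbs, Int.natCast_natAbs, h1, h2]; ring
        · rw [Int.natCast_natAbs, Int.natCast_natAbs, h1, h2]; ring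
        · exfalso; apply hne; rw [Int.natCast_natAbs, Int.natCast_natAbs, h1, h2]; ring
      have h1 := P_mul hQ hQ'
      rw [heq] at h1
      have h2 := P_inj hord h1 (P_zero_one s)
      have h3 : Even (m ^ c'.natAbs * m' ^ c.natAbs) := hev.mul_right _
      rw [h2] at h3
      exact absurd h3 (by decide)
  · push Not at hord
    obtain ⟨n, hn, hn0⟩ := hord
    exact hc (fin_zero hfree hP hn0 hn)

/-- If all elements of a subgroup are conjugate to `s0` or its inverse by powers of `a`,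
they all have order `2` or all have order `3`. -/
lemma all_exp (T : Subgroup G) (s0 : G) (hfree : ∀ s ∈ T, s ≠ 1 → ∀ u : ℤ, u ≠ 0 → X a s u ≠ s)
    (hnt : ∃ s ∈ T, s ≠ 1)
    (horb : ∀ s ∈ T, s ≠ 1 → ∃ c : ℤ, s = X a s0 c ∨ s⁻¹ = X a s0 c) :
    (∀ s ∈ T, s * s = 1) ∨ (∀ s ∈ T, s * s * s = 1) := by
  -- two elements are conjugate up to inversion
  have hconj : ∀ s ∈ T, s ≠ 1 → ∀ t ∈ T, t ≠ 1 → ∃ c : ℤ, X a s c = t ∨ X a s c = t⁻¹ := by
    intro s hs hs1 t ht ht1
    obtain ⟨c, hc⟩ := horb s hs hs1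
    obtain ⟨d, hd⟩ := horb t ht ht1
    refine ⟨d - c, ?_⟩
    have hXi : ∀ (y : G) (n : ℤ), X a y⁻¹ n = (X a y n)⁻¹ := by
      intro y n
      unfold X
      rw [zpow_neg]
      group
    have hXX : ∀ (y : G) (n k : ℤ), X a (X a y n) k = X a y (k + n) := by
      intro y n k
      exact X_conj k n
    rcases hc with hc | hc
    · rcases hd with hd | hd
      · left
        rw [hc, hXX, hd, sub_add_cancel]
      · right
        rw [hc, hXX, hd, sub_add_cancel]
    · have hc' : s = (X a s0 c)⁻¹ := by rw [← hc, inv_inv]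
      rcases hd with hd | hd
      · right
        rw [hc', hXi, hXX, sub_add_cancel, hd]
      · left
        rw [hc', hXi, hXX, sub_add_cancel, ← hd, inv_inv]
  have hpt : ∀ s ∈ T, s ≠ 1 → s * s = 1 ∨ s * s * s = 1 := by
    intro s hs hs1
    refine two_or_three (hfree s hs hs1) ?_ ?_
    · intro h
      obtain ⟨c, hc⟩ := hconj s hs hs1 _ (T.mul_mem hs hs) h
      refine ⟨c, ?_⟩
      unfold P
      rw [zpow_neg, zpow_ofNat, pow_two]
      exact hc
    · intro h
      obtain ⟨c, hc⟩ := hconj s hs hs1 _ (T.mul_mem (T.mul_mem hs hs) hs) h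
      refine ⟨c, ?_⟩
      unfold P
      rw [zpow_neg, zpow_ofNat, pow_succ, pow_two]
      exact hc
  obtain ⟨s, hs, hs1⟩ := hnt
  have hXm : ∀ (y z : G) (n : ℤ), X a (y * z) n = X a y n * X a z n := by
    intro y z n
    exact conj_mul' n y z
  have hX1 : ∀ n : ℤ, X a (1 : G) n = 1 := by
    intro n
    unfold X
    rw [mul_one, ← zpow_add, add_neg_cancel, zpow_zero]
  rcases hpt s hs hs1 with h | h
  · left
    intro t ht
    by_cases ht1 : t = 1
    · rw [ht1, one_mul]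
    · obtain ⟨c, hc⟩ := hconj s hs hs1 t ht ht1
      have h1 : X a s c * X a s c = 1 := by rw [← hXm, h, hX1]
      rcases hc with hc | hc
      · rwa [hc] at h1
      · rw [hc, ← mul_inv_rev] at h1
        exact inv_eq_one.1 h1
  · right
    intro t ht
    by_cases ht1 : t = 1
    · rw [ht1, one_mul, one_mul]
    · obtain ⟨c, hc⟩ := hconj s hs hs1 t ht ht1
      have h1 : X a s c * X a s c * X a s c = 1 := by rw [← hXm, ← hXm, h, hX1]
      rcases hc with hc | hc
      · rwa [hc] at h1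
      · rw [hc, ← mul_inv_rev, ← mul_inv_rev, ← mul_assoc] at h1
        exact inv_eq_one.1 h1

end orbit

end Pool.Agent.Work.MP_302c96_al.Str
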