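import Pool.Agent.Work.MP_302c96_al.Str.Sim

/-! The finite residual of a counterexample is simple: conclusion. -/

set_option autoImplicit false

namespace Pool.Agent.Work.MP_302c96_al.Str

open Pool.Agent.Work.MP_302c96_al.Mal

universe u v

variable {G : Type u} [Group G] {a x : G} {D N : Subgroup G} {n : ℕ} {P : Fin n → Subgroup G}
  {σ : Equiv.Perm (Fin n)} {K : ℕ}

namespace Ac

variable (H : Ac a x D N n P σ K)

include H

open Classical in
lemma card_eq (i j : ℤ) :
    (Finset.univ.filter (fun m => Per a x P K i m)).card =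
      (Finset.univ.filter (fun m => Per a x P K j m)).card := by
  refine Finset.card_bij (fun m _ => (σ ^ (j - i)) m) ?_ ?_ ?_
  · intro m hm
    rw [Finset.mem_filter] at hm ⊢
    refine ⟨Finset.mem_univ _, ?_⟩
    have := (H.per_shift (j - i) i m).2 hm.2
    rwa [show i + (j - i) = j by ring] at this
  · intro m _ m' _ h
    exact (σ ^ (j - i)).injective h
  · intro m hm
    rw [Finset.mem_filter] at hm
    refine ⟨(σ ^ (j - i))⁻¹ m, ?_, pm_ai _ _⟩
    rw [Finset.mem_filter]
    refine ⟨Finset.mem_univ _, ?_⟩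
    rw [← H.per_shift (j - i) i, pm_ai, show i + (j - i) = j by ring]
    exact hm.2

/-- at most two factors -/
lemma le_two : n ≤ 2 := by
  classical
  by_contra hn
  obtain ⟨A, hA⟩ : ∃ A : ℤ → Finset (Fin n), A = fun i => Finset.univ.filter (fun m => Per a x P K i m) :=
    ⟨_, rfl⟩
  have hAm : ∀ i m, m ∈ A i ↔ Per a x P K i m := by
    intro i m
    rw [hA]
    simp
  have hAc : ∀ i j, (A i).card = (A j).card := by
    rw [hA]
    exact H.card_eq
  obtain ⟨c, hc⟩ : ∃ c, c = (A 0).card := ⟨_, rfl⟩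
  have hc' : ∀ i, (A i).card = c := fun i => by rw [hc, hAc i 0]
  have h1 : c < n := by
    obtain ⟨m, hm⟩ := H.not_all 0
    have : (A 0).card < (Finset.univ : Finset (Fin n)).card := by
      apply Finset.card_lt_card
      rw [Finset.ssubset_univ_iff]
      intro h
      apply hm
      rw [← hAm, h]
      exact Finset.mem_univ m
    rw [Finset.card_univ, Fintype.card_fin] at this
    omega
  have h2 : 2 * c ≤ n := by
    obtain ⟨i, j, hij⟩ := H.disj
    have hd : Disjoint (A i) (A j) := by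
      rw [Finset.disjoint_left]
      intro m hm hm'
      exact hij m ⟨(hAm i m).1 hm, (hAm j m).1 hm'⟩
    have h3 := Finset.card_union_of_disjoint hd
    have h4 := Finset.card_le_univ (A i ∪ A j)
    rw [h3, hc', hc', Fintype.card_fin] at h4
    omega
  have h3 : ∀ m m' : Fin n, m ≠ m' → ∃ i, (Finset.univ.erase m).erase m' ⊆ A i := by
    intro m m' hmm
    obtain ⟨i, hi⟩ := H.two hmm
    refine ⟨i, fun m'' hm'' => ?_⟩
    rw [Finset.mem_erase, Finset.mem_erase] at hm''
    exact (hAm i m'').2 (hi m'' hm''.2.1 hm''.1)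
  have hcard : ∀ m m' : Fin n, m ≠ m' → ((Finset.univ.erase m).erase m').card = n - 2 := by
    intro m m' hmm
    rw [Finset.card_erase_of_mem (by rw [Finset.mem_erase]; exact ⟨hmm.symm, Finset.mem_univ _⟩),
      Finset.card_erase_of_mem (Finset.mem_univ _), Finset.card_univ, Fintype.card_fin]
    omega
  obtain ⟨m0, hm0⟩ : ∃ m : Fin n, m = ⟨0, by omega⟩ := ⟨_, rfl⟩
  obtain ⟨m1, hm1⟩ : ∃ m : Fin n, m = ⟨1, by omega⟩ := ⟨_, rfl⟩
  obtain ⟨m2, hm2⟩ : ∃ m : Fin n, m = ⟨2, by omega⟩ := ⟨_, rfl⟩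
  have h01 : m0 ≠ m1 := by rw [hm0, hm1]; intro h; exact absurd (congrArg Fin.val h) (by norm_num)
  have h02 : m0 ≠ m2 := by rw [hm0, hm2]; intro h; exact absurd (congrArg Fin.val h) (by norm_num)
  have h12 : m1 ≠ m2 := by rw [hm1, hm2]; intro h; exact absurd (congrArg Fin.val h) (by norm_num)
  have h4 : n - 2 ≤ c := by
    obtain ⟨i, hi⟩ := h3 m0 m1 h01
    have := Finset.card_le_card hi
    rwa [hcard _ _ h01, hc'] at this
  have h5 : c = n - 2 := by omega
  have h6 : ∀ m m' : Fin n, m ≠ m' → ∃ i, ∀ m'', m'' ∉ A i → m'' = m ∨ m'' = m' := by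
    intro m m' hmm
    obtain ⟨i, hi⟩ := h3 m m' hmm
    refine ⟨i, fun m'' hm'' => ?_⟩
    by_contra hcon
    push Not at hcon
    exact hm'' (hi (by rw [Finset.mem_erase, Finset.mem_erase]; exact ⟨hcon.2, hcon.1, Finset.mem_univ _⟩))
  have h6' : ∀ m m' : Fin n, m ≠ m' → ∃ i, m ∉ A i ∧ ∀ m'', m'' ∉ A i → m'' = m ∨ m'' = m' := by
    intro m m' hmm
    obtain ⟨i, hi⟩ := h3 m m' hmm
    have heq : (Finset.univ.erase m).erase m' = A i :=
      Finset.eq_of_subset_of_card_le hi (by rw [hcard _ _ hmm, hc', h5])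
    refine ⟨i, ?_, fun m'' hm'' => ?_⟩
    · rw [← heq]
      simp
    · rw [← heq] at hm''
      by_contra hcon
      push Not at hcon
      exact hm'' (by rw [Finset.mem_erase, Finset.mem_erase]; exact ⟨hcon.2, hcon.1, Finset.mem_univ _⟩)
  -- an element of the factor `m0`
  obtain ⟨s, hs, hs1, hs2⟩ := H.factor m0
  obtain ⟨i, j, hij⟩ := H.form s (H.dn hs)
  have hne : i ≠ j := by
    rintro rfl
    rw [mul_inv_cancel] at hij
    apply hs2
    rw [hij]
    exact (P m0).one_mem
  have hoff : ∀ m, m ≠ m0 → (m ∈ A i ↔ m ∈ A j) := by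
    intro m hm
    rw [hAm, hAm]
    apply H.per_iff
    rw [← hij]
    exact hs1 m hm
  have hnb : ¬ (m0 ∈ A i ∧ m0 ∈ A j) := by
    rintro ⟨h7, h8⟩
    apply hs2
    rw [hij]
    rw [hij] at hs
    exact H.per_pair ((hAm _ _).1 h7) ((hAm _ _).1 h8) hs
  have heq : A i = A j := by
    by_cases hi : m0 ∈ A i
    · exfalso
      have hj : m0 ∉ A j := fun hj => hnb ⟨hi, hj⟩
      have h7 : A i = insert m0 (A j) := by
        ext m
        rw [Finset.mem_insert]
        by_cases hm : m = m0
        · subst hm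
          simp [hi]
        · rw [hoff m hm]
          simp [hm]
      have h8 := congrArg Finset.card h7
      rw [Finset.card_insert_of_notMem hj, hc', hc'] at h8
      omega
    · by_cases hj : m0 ∈ A j
      · exfalso
        have h7 : A j = insert m0 (A i) := by
          ext m
          rw [Finset.mem_insert]
          by_cases hm : m = m0
          · subst hm
            simp [hj]
          · rw [hoff m hm]
            simp [hm]
        have h8 := congrArg Finset.card h7
        rw [Finset.card_insert_of_notMem hi, hc', hc'] at h8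
        omega
      · ext m
        by_cases hm : m = m0
        · subst hm
          exact iff_of_false hi hj
        · exact hoff m hm
  have hsh : ∀ (c i : ℤ) (m : Fin n), (σ ^ c) m ∈ A (i + c) ↔ m ∈ A i := by
    intro c i m
    rw [hAm, hAm]
    exact H.per_shift c i m
  have hinv : ∀ (i' : ℤ) (m : Fin n), (σ ^ (i - j)) m ∈ A i' ↔ m ∈ A i' := by
    intro i' m
    have h7 := hsh (i' - i) i ((σ ^ (i - i')) ((σ ^ (i - j)) m))
    have h8 : (σ ^ (i' - i)) ((σ ^ (i - i')) ((σ ^ (i - j)) m)) = (σ ^ (i - j)) m := by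
      rw [← Equiv.Perm.mul_apply, ← zpow_add, show i' - i + (i - i') = 0 by ring, zpow_zero]
      rfl
    rw [h8, show i + (i' - i) = i' by ring] at h7
    have h9 := hsh (i - j) j ((σ ^ (i - i')) m)
    have h10 : (σ ^ (i - j)) ((σ ^ (i - i')) m) = (σ ^ (i - i')) ((σ ^ (i - j)) m) := by
      rw [← Equiv.Perm.mul_apply, ← Equiv.Perm.mul_apply, ← zpow_add, ← zpow_add, add_comm]
    rw [show j + (i - j) = i by ring, h10] at h9
    have h11 := hsh (i' - i) i ((σ ^ (i - i')) m)
    have h12 : (σ ^ (i' - i)) ((σ ^ (i - i')) m) = m := by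
      rw [← Equiv.Perm.mul_apply, ← zpow_add, show i' - i + (i - i') = 0 by ring, zpow_zero]
      rfl
    rw [h12, show i + (i' - i) = i' by ring] at h11
    rw [h7, h9, h11, heq]
  have hfix : (σ ^ (i - j)) m0 = m0 := by
    obtain ⟨i1, hi1, hi1'⟩ := h6' m0 m1 h01
    obtain ⟨i2, hi2, hi2'⟩ := h6' m0 m2 h02
    have h7 := hi1' ((σ ^ (i - j)) m0) (fun h => hi1 ((hinv i1 m0).1 h))
    have h8 := hi2' ((σ ^ (i - j)) m0) (fun h => hi2 ((hinv i2 m0).1 h))
    rcases h7 with h7 | h7
    · exact h7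
    · rcases h8 with h8 | h8
      · exact h8
      · exact absurd (h7.symm.trans h8) h12
  have h7 := H.chain hne (fun m' hm' => by rw [← hij]; exact hs1 m' hm') hfix
  have h8 : Finset.univ.erase m0 ⊆ A j := by
    intro m hm
    rw [Finset.mem_erase] at hm
    exact (hAm j m).2 (h7 m hm.1)
  have h9 := Finset.card_le_card h8
  rw [Finset.card_erase_of_mem (Finset.mem_univ _), Finset.card_univ, Fintype.card_fin, hc'] at h9
  omega

/-- the case of two factors: the elements of the factor `m0` form two orbits -/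
lemma two_orbits {m0 m1 : Fin n} (h01 : m0 ≠ m1) (hall : ∀ m, m = m0 ∨ m = m1) :
    ∃ s0 : G, ∀ s ∈ D, s ∈ P m1 → s ≠ 1 → ∃ c : ℤ, s = X a s0 c ∨ s⁻¹ = X a s0 c := by
  classical
  have hP0 : ∀ s, s ∈ P m1 → s ≠ 1 → s ∉ P m0 := by
    intro s hs hs1 hs0
    apply hs1
    apply H.fam.triv
    intro m
    rcases hall m with rfl | rfl
    · exact hs0
    · exact hs
  by_cases hper : ∃ i m, Per a x P K i m
  · -- every `X i` has exactly one periodic coordinate
    obtain ⟨i0, m, him⟩ := hper
    have hex : ∀ i, Per a x P K i m0 ∨ Per a x P K i m1 := by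
      intro i
      have h1 := (H.per_shift (i - i0) i0 m).2 him
      rw [show i0 + (i - i0) = i by ring] at h1
      rcases hall ((σ ^ (i - i0)) m) with h | h
      · rw [h] at h1
        exact Or.inl h1
      · rw [h] at h1
        exact Or.inr h1
    obtain ⟨s', hs', hs1', hs2'⟩ := H.factor m1
    have hs0' : s' ∈ P m0 := hs1' m0 h01
    refine ⟨x, fun s hs hs1 hs2 => ?_⟩
    have hs0 := hP0 s hs1 hs2
    -- `s` and `s'` commute
    have hcomm : s * s' = s' * s := by
      have h1 : s * s' * s⁻¹ * s'⁻¹ = 1 := by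
        apply H.fam.triv
        intro m
        rcases hall m with rfl | rfl
        · exact (P m).mul_mem (H.fam.norm m s hs s' hs0') ((P m).inv_mem hs0')
        · have h2 := (P m).mul_mem hs1 (H.fam.norm m s' hs' _ ((P m).inv_mem hs1))
          have e : s * (s' * s⁻¹ * s'⁻¹) = s * s' * s⁻¹ * s'⁻¹ := by group
          rwa [e] at h2
      have h2 := mul_inv_eq_one.1 h1
      calc s * s' = s * s' * s⁻¹ * s := by group
        _ = s' * s := by rw [h2]
    have hd : s * s' ∈ D := D.mul_mem hs hs'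
    have hd0 : s * s' ∉ P m0 := by
      intro h
      apply hs0
      have := (P m0).mul_mem h ((P m0).inv_mem hs0')
      rwa [mul_inv_cancel_right] at this
    have hd1 : s * s' ∉ P m1 := by
      intro h
      apply hs2'
      have := (P m1).mul_mem ((P m1).inv_mem hs1) h
      rwa [inv_mul_cancel_left] at this
    obtain ⟨i, j, hij⟩ := H.form (s * s') (H.dn hd)
    have hn0 : ¬ (Per a x P K i m0 ∧ Per a x P K j m0) := fun h => hd0 (by
      rw [hij]
      exact H.per_pair h.1 h.2 (by rw [← hij]; exact hd))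
    have hn1 : ¬ (Per a x P K i m1 ∧ Per a x P K j m1) := fun h => hd1 (by
      rw [hij]
      exact H.per_pair h.1 h.2 (by rw [← hij]; exact hd))
    -- the common argument
    have key : ∀ (p q : ℤ) (t t' : G) (r r' : Fin n), r ≠ r' → Per a x P K p r → Per a x P K q r' →
        t ∈ P r → t' ∈ P r' → t * t' = X a x p * (X a x q)⁻¹ → t = X a x p ∧ t'⁻¹ = X a x q := by
      intro p q t t' r r' hrr hp hq ht ht' hpq
      obtain ⟨u, hu0, hu⟩ := hp
      obtain ⟨w, hw0, hw⟩ := hq
      have h1 : w * u ∈ H.perG p r := by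
        have := (H.perG p r).zsmul_mem (mem_perG.2 hu) w
        rwa [smul_eq_mul] at this
      have h2 : w * u ∈ H.perG q r' := by
        have := (H.perG q r').zsmul_mem (mem_perG.2 hw) u
        rwa [smul_eq_mul, mul_comm] at this
      obtain ⟨y, hy⟩ : ∃ y, y = t⁻¹ * X a x p := ⟨_, rfl⟩
      have hy' : y = t' * X a x q := by
        rw [hy]
        have h3 : X a x p = t * t' * X a x q := by rw [hpq, inv_mul_cancel_right]
        rw [h3]
        group
      have h3 : a ^ (w * u) * y * a ^ (-(w * u)) * y⁻¹ ∈ P r := by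
        rw [hy, cj_mul, X_conj, add_comm (w * u) p]
        have h4 := (H.pres h1.1 r _).1 ((P r).inv_mem ht)
        have h5 := (P r).mul_mem ((P r).mul_mem h4 h1.2) ht
        have e : a ^ (w * u) * t⁻¹ * a ^ (-(w * u)) * (X a x (p + w * u) * (X a x p)⁻¹) * t =
            a ^ (w * u) * t⁻¹ * a ^ (-(w * u)) * X a x (p + w * u) * (t⁻¹ * X a x p)⁻¹ := by group
        rwa [e] at h5
      have h4 : a ^ (w * u) * y * a ^ (-(w * u)) * y⁻¹ ∈ P r' := by
        rw [hy', cj_mul, X_conj, add_comm (w * u) q]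
        have h4 := (H.pres h2.1 r' _).1 ht'
        have h5 := (P r').mul_mem ((P r').mul_mem h4 h2.2) ((P r').inv_mem ht')
        have e : a ^ (w * u) * t' * a ^ (-(w * u)) * (X a x (q + w * u) * (X a x q)⁻¹) * t'⁻¹ =
            a ^ (w * u) * t' * a ^ (-(w * u)) * X a x (q + w * u) * (t' * X a x q)⁻¹ := by group
        rwa [e] at h5
      have h5 : a ^ (w * u) * y * a ^ (-(w * u)) * y⁻¹ = 1 := by
        apply H.fam.triv
        intro m
        have hrm : m = r ∨ m = r' := by
          rcases hall m with hm | hm <;> rcases hall r with hr | hr <;> rcases hall r' with hr' | hr'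
          · exact absurd (hr.trans hr'.symm) hrr
          · exact Or.inl (hm.trans hr.symm)
          · exact Or.inr (hm.trans hr'.symm)
          · exact absurd (hr.trans hr'.symm) hrr
          · exact absurd (hr.trans hr'.symm) hrr
          · exact Or.inr (hm.trans hr'.symm)
          · exact Or.inl (hm.trans hr.symm)
          · exact absurd (hr.trans hr'.symm) hrr
        rcases hrm with rfl | rfl
        · exact h3
        · exact h4
      have hyN : y ∈ N := by
        rw [hy]
        exact N.mul_mem (N.inv_mem (H.dn (H.fam.le r ht))) (H.hX p)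
      have h6 := H.cent _ y (mul_ne_zero hw0 hu0) hyN (mul_inv_eq_one.1 h5)
      constructor
      · rw [h6] at hy
        exact (inv_mul_eq_one.1 hy.symm)
      · rw [h6] at hy'
        exact inv_eq_of_mul_eq_one_right hy'.symm
    rcases hex i with hi | hi
    · rcases hex j with hj | hj
      · exact absurd ⟨hi, hj⟩ hn0
      · -- `i` periodic in `m0`, `j` periodic in `m1`
        have h1 := key i j s' s m0 m1 h01 hi hj hs0' hs1 (by rw [← hcomm, hij])
        exact ⟨j, Or.inr h1.2⟩
    · rcases hex j with hj | hj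
      · have h1 := key i j s s' m1 m0 h01.symm hi hj hs1 hs0' hij
        exact ⟨i, Or.inl h1.1⟩
      · exact absurd ⟨hi, hj⟩ hn1
  · -- no periodic coordinate
    push Not at hper
    obtain ⟨F, hF⟩ : ∃ F : ℤ → Prop, F = fun u => (σ ^ u) m0 = m0 := ⟨_, rfl⟩
    have hFm : ∀ u, F u ↔ (σ ^ u) m0 = m0 := fun u => by rw [hF]
    have hF1 : ∀ u, ¬ F u → (σ ^ u) m0 = m1 := by
      intro u hu
      rcases hall ((σ ^ u) m0) with h | h
      · exact absurd ((hFm u).2 h) hu
      · exact h
    have hFs : ∀ u w, ¬ F u → ¬ F w → F (u - w) := by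
      intro u w hu hw
      have h1 := hF1 u hu
      have h2 := hF1 w hw
      rw [hFm]
      have h3 : (σ ^ (u - w)) m0 = (σ ^ (-w)) ((σ ^ u) m0) := by
        rw [← Equiv.Perm.mul_apply, ← zpow_add]
        congr 2
        ring
      rw [h3, h1, ← h2, ← Equiv.Perm.mul_apply, ← zpow_add, neg_add_cancel, zpow_zero]
      rfl
    -- the relation
    have hE : ∀ i j : ℤ, i ≠ j → X a x i * (X a x j)⁻¹ ∈ P m1 → ¬ F (i - j) := by
      intro i j hne hm hf
      refine hper j m1 (H.chain (m := m0) hne ?_ ((hFm _).1 hf) m1 h01.symm)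
      intro m' hm'
      rcases hall m' with h | h
      · exact absurd h hm'
      · rw [h]
        exact hm
    have hEsh : ∀ c i j : ℤ, F c → X a x i * (X a x j)⁻¹ ∈ P m1 →
        X a x (i + c) * (X a x (j + c))⁻¹ ∈ P m1 := by
      intro c i j hc hm
      have h1 := (H.sigz c m1 _).1 hm
      rw [cj_mul, cj_inv, X_conj, X_conj] at h1
      have h2 : (σ ^ c) m1 = m1 := by
        rcases hall ((σ ^ c) m1) with h | h
        · exfalso
          apply h01
          apply (σ ^ c).injective
          rw [h, (hFm c).1 hc]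
        · exact h
      rwa [h2, add_comm c i, add_comm c j] at h1
    have huniq : ∀ i j j' : ℤ, i ≠ j → i ≠ j' → X a x i * (X a x j)⁻¹ ∈ P m1 →
        X a x i * (X a x j')⁻¹ ∈ P m1 → j = j' := by
      intro i j j' h1 h2 h3 h4
      by_contra hne
      have h5 : X a x j * (X a x j')⁻¹ ∈ P m1 := by
        have := (P m1).mul_mem ((P m1).inv_mem h3) h4
        have e : (X a x i * (X a x j)⁻¹)⁻¹ * (X a x i * (X a x j')⁻¹) = X a x j * (X a x j')⁻¹ := by
          group
        rwa [e] at this
      have h6 := hE j j' hne h5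
      have h7 := hFs _ _ (hE i j' h2 h4) (hE i j h1 h3)
      apply h6
      rwa [show i - j' - (i - j) = j - j' by ring] at h7
    obtain ⟨s0, hs0, hs1, hs2⟩ := H.factor m0
    have hs01 : s0 ∈ P m1 := hs1 m1 h01.symm
    obtain ⟨i0, j0, hij0⟩ := H.form s0 (H.dn hs0)
    have hne0 : i0 ≠ j0 := by
      rintro rfl
      rw [mul_inv_cancel] at hij0
      apply hs2
      rw [hij0]
      exact (P m0).one_mem
    have hm00 : X a x i0 * (X a x j0)⁻¹ ∈ P m1 := by rwa [← hij0]
    have hm00' : X a x j0 * (X a x i0)⁻¹ ∈ P m1 := by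
      have := (P m1).inv_mem hm00
      rwa [mul_inv_rev, inv_inv] at this
    refine ⟨s0, fun s hs hsP hs1 => ?_⟩
    obtain ⟨i, j, hij⟩ := H.form s (H.dn hs)
    have hne : i ≠ j := by
      rintro rfl
      rw [mul_inv_cancel] at hij
      exact hs1 hij
    have hm0 : X a x i * (X a x j)⁻¹ ∈ P m1 := by rwa [← hij]
    by_cases hF0 : F (i - i0)
    · have h1 := hEsh (i - i0) i0 j0 hF0 hm00
      rw [show i0 + (i - i0) = i by ring] at h1
      have h2 := huniq i j (j0 + (i - i0)) hne (by omega) hm0 h1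
      refine ⟨i - i0, Or.inl ?_⟩
      have h3 : X a s0 (i - i0) = a ^ (i - i0) * s0 * a ^ (-(i - i0)) := rfl
      rw [h3, hij0, cj_mul, cj_inv, X_conj, X_conj, hij, show i - i0 + i0 = i by ring, h2,
        add_comm j0 (i - i0)]
    · have hF0' : F (i - j0) := by
        by_contra hF1'
        have h1 := hFs _ _ hF1' hF0
        rw [show i - j0 - (i - i0) = i0 - j0 by ring] at h1
        exact hE i0 j0 hne0 hm00 h1
      have h1 := hEsh (i - j0) j0 i0 hF0' hm00'
      rw [show j0 + (i - j0) = i by ring] at h1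
      have h2 := huniq i j (i0 + (i - j0)) hne (by omega) hm0 h1
      refine ⟨i - j0, Or.inr ?_⟩
      have h3 : X a s0 (i - j0) = a ^ (i - j0) * s0 * a ^ (-(i - j0)) := rfl
      rw [h3, hij0, cj_mul, cj_inv, X_conj, X_conj, hij, mul_inv_rev, inv_inv,
        show i - j0 + j0 = i by ring, h2, add_comm i0 (i - j0)]

end Ac

/-- the residual is simple -/
theorem decomp_simple (h : Ctx a x) {S : Type v} [Group S]
    (hS : IsSimpleGroup S) (hinf : Infinite S) (n : ℕ) (hn : 0 < n) (e : Rs G ≃* (Fin n → S))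
    (hA : ∀ n : ℤ, a ^ n ∈ commutator G → n = 0) : n = 1 := by
  classical
  obtain ⟨c, hc, hx⟩ := gauge h
  have hna := simple_na hS hinf
  have hfam := fam_Pf hS hna hn e
  choose f hf using fun m => hfam.perm a m
  have hfinj : Function.Injective f := by
    intro m m' hmm
    by_contra hne
    have h1 : ∀ d, d ∈ Pf e m ↔ d ∈ Pf e m' := by
      intro d
      rw [hf m, hf m', hmm]
    obtain ⟨d, hd, hdm⟩ := hfam.full
    obtain ⟨s, hs, hs1, hs2⟩ := hfam.comp m d hd
    have h2 : s ∈ Pf e m := (h1 s).2 (hs1 m' (Ne.symm hne))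
    apply hdm m
    have := (Pf e m).mul_mem h2 hs2
    rwa [mul_inv_cancel_left] at this
  let σ : Equiv.Perm (Fin n) := Equiv.ofBijective f (Finite.injective_iff_bijective.1 hfinj)
  have hNn : (commutator G).Normal := inferInstance
  have H : Ac a (x * a ^ c) (Rs G) (commutator G) n (Pf e) σ (orderOf σ) := by
    refine ⟨hfam, hn, Rs_le_comm h hA, ?_, ?_, ?_, x_ne hc, fun m d => hf m d, orderOf_pos σ,
      pow_orderOf_eq_one σ⟩
    · intro i
      unfold X
      rw [zpow_neg]
      exact hNn.conj_mem _ hx _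
    · intro g hg
      exact mem_form hc.cov hNn hx hA hg
    · intro u g hu hg hcomm
      have h1 : g * a ^ u * g⁻¹ = a ^ u := by
        have h2 : a ^ u * g = g * a ^ u := by
          nth_rewrite 2 [← hcomm]
          rw [mul_assoc, ← zpow_add, neg_add_cancel, zpow_zero, mul_one]
        rw [← h2, mul_inv_cancel_right]
      obtain ⟨k, hk⟩ := h.mal g u u hu h1
      rw [hk] at hg
      rw [hk, hA k hg, zpow_zero]
  have h2 := H.le_two
  by_contra hn1
  have hn2 : n = 2 := by omega
  obtain ⟨m0, hm0⟩ : ∃ m : Fin n, m = ⟨0, by omega⟩ := ⟨_, rfl⟩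
  obtain ⟨m1, hm1⟩ : ∃ m : Fin n, m = ⟨1, by omega⟩ := ⟨_, rfl⟩
  have h01 : m0 ≠ m1 := by rw [hm0, hm1]; intro h; exact absurd (congrArg Fin.val h) (by norm_num)
  have hall : ∀ m, m = m0 ∨ m = m1 := by
    intro m
    have := m.2
    rcases (by omega : (m : ℕ) = 0 ∨ (m : ℕ) = 1) with h | h
    · left
      rw [hm0]
      exact Fin.ext h
    · right
      rw [hm1]
      exact Fin.ext h
  obtain ⟨s0, hs0⟩ := H.two_orbits h01 hall
  -- the factor as a subgroup
  have hfree : ∀ s ∈ Pf e m1, s ≠ 1 → ∀ u : ℤ, u ≠ 0 → X a s u ≠ s := by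
    intro s hs hs1 u hu heq
    exact hs1 (H.cent u s hu (H.dn (Pf_le e m1 hs)) heq)
  have hmem : ∀ s : S, ((e.symm (Pi.mulSingle m0 s) : Rs G) : G) ∈ Pf e m1 := by
    intro s
    rw [mem_Pf, MulEquiv.apply_symm_apply, Pi.mulSingle_eq_of_ne h01.symm]
  have hinj : ∀ s t : S, (e.symm (Pi.mulSingle m0 s) : Rs G) = e.symm (Pi.mulSingle m0 t) → s = t := by
    intro s t hst
    have h3 := congrFun (e.symm.injective hst) m0
    rwa [Pi.mulSingle_eq_same, Pi.mulSingle_eq_same] at h3
  have hmul : ∀ s t : S, (e.symm (Pi.mulSingle m0 (s * t)) : Rs G) =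
      e.symm (Pi.mulSingle m0 s) * e.symm (Pi.mulSingle m0 t) := by
    intro s t
    rw [← map_mul, Pi.mulSingle_mul]
  have hone : (e.symm (Pi.mulSingle m0 (1 : S)) : Rs G) = 1 := by
    rw [Pi.mulSingle_one, map_one]
  obtain ⟨s1, t1, hst⟩ := hna
  have hs11 : s1 ≠ 1 := by
    rintro rfl
    exact hst (by rw [one_mul, mul_one])
  have hnt : ∃ s ∈ Pf e m1, s ≠ 1 := by
    refine ⟨_, hmem s1, ?_⟩
    intro h3
    apply hs11
    apply hinj
    rw [hone]
    exact Subtype.ext h3
  rcases all_exp (Pf e m1) s0 hfree hnt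
    (fun s hs hs1 => hs0 s (Pf_le e m1 hs) hs hs1) with h3 | h3
  · apply hst
    apply exp_two
    intro g
    apply hinj
    rw [hmul, hone]
    exact Subtype.ext (h3 _ (hmem g))
  · apply hst
    apply exp_three hS
    intro g
    apply hinj
    rw [hmul, hmul, hone]
    exact Subtype.ext (h3 _ (hmem g))

/-- The finite residual is an infinite simple group. -/
theorem Rs_simple {G : Type u} [Group G] {a x : G} (h : Ctx a x) (hR : Rs G ≠ ⊥) :
    IsSimpleGroup (Rs G) ∧ Infinite (Rs G) := by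
  obtain ⟨S, _, n, hn, hS, hSi, _, ⟨e⟩⟩ := decomp h hR
  obtain ⟨L, hL⟩ := exists_amb h hR
  have h1 : n = 1 := by
    rcases hL.cases with ⟨_, hfi⟩ | ⟨_, hA⟩
    · exact decomp_one h hfi hS hSi n hn e
    · exact decomp_simple h hS hSi n hn e hA
  subst h1
  let f : Rs G ≃* S := e.trans (MulEquiv.piUnique fun _ : Fin 1 => S)
  have hnt : Nontrivial (Rs G) := (Subgroup.nontrivial_iff_ne_bot _).2 hR
  exact ⟨IsSimpleGroup.isSimpleGroup_of_surjective f.symm.toMonoidHom f.symm.surjective, f.toEquiv.infinite_iff.2 hSi⟩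

end Pool.Agent.Work.MP_302c96_al.Str
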